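import Pool.Agent.Helper31K9.BU.St

/-!
# Assembly of the first part
-/

set_option autoImplicit false

namespace Pool.Agent.Helper31K9.BU

open Finset Filter Topology
open Pool.Agent.H189R2.Lev (ht cr)
open Pool.Agent.Results.MP_a08d0a_co.SmoothedLevel (Simple level psi)
open Pool.Agent.Y344.KD (sub)

namespace AsmL

/-- the parameters -/
theorem params {D n k : ℕ} (hD : 16 ≤ D) (hk : 16 * (D + 1) ≤ k) (hn : 2 * k ≤ n) :
    ∃ m r₁ r₂ N c : ℕ, m = k / (D + 1) ∧ 16 ≤ m ∧ n = N * m + r₁ + r₂ ∧ c = D * m + r₁ ∧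
      k = c + 3 * m / 4 ∧ 2 * D + 1 ≤ N ∧ n ≤ 2 * (N * m) ∧ c + m ≤ 2 * k := by
  set m := k / (D + 1) with hm
  have hm16 : 16 ≤ m := (Nat.le_div_iff_mul_le (by omega)).mpr hk
  have h1 : m * (D + 1) ≤ k := Nat.div_mul_le_self k (D + 1)
  have h2 : k < (D + 1) * (m + 1) := by
    have := Nat.lt_mul_div_succ k (show 0 < D + 1 by omega)
    exact this
  set P := m * (D + 1) with hP
  have h3 : (D + 1) * (m + 1) = P + D + 1 := by rw [hP]; ring
  have h4 : D * m + m = P := by rw [hP]; ring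
  have h5 : 17 * m ≤ P := by rw [hP]; nlinarith
  have h6 : 16 * (D + 1) ≤ P := by rw [hP]; nlinarith
  obtain ⟨r₁, hr₁⟩ : ∃ r₁, k = D * m + 3 * m / 4 + r₁ := ⟨k - (D * m + 3 * m / 4), by omega⟩
  have h7 : (n - r₁) / m * m + (n - r₁) % m = n - r₁ := Nat.div_add_mod' _ _
  have h8 : (n - r₁) % m < m := Nat.mod_lt _ (by omega)
  refine ⟨m, r₁, (n - r₁) % m, (n - r₁) / m, D * m + r₁, rfl, hm16, by omega, rfl, by omega, ?_,
    by omega, by omega⟩
  rw [Nat.le_div_iff_mul_le (by omega)]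
  have h9 : (2 * D + 1) * m = P + D * m := by rw [hP]; ring
  omega

/-- counting the members of a bundle and of the lower set that survive -/
theorem cnt {n m : ℕ} {R L : Finset (Fin n)} {U : Fin m → Fin n} (hU : Function.Injective U)
    (hUL : ∀ s, U s ∉ L) {t : ℕ} (hR : n ≤ R.card + t) :
    L.card + m ≤ (R ∩ L).card + (univ.filter fun s : Fin m => U s ∈ R).card + t := by
  classical
  have e1 : (univ.filter fun s : Fin m => U s ∈ R).card = (R ∩ univ.image U).card := by
    rw [← card_image_of_injective _ hU]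
    congr 1
    ext i
    simp only [mem_image, mem_filter, mem_univ, true_and, mem_inter]
    constructor
    · rintro ⟨s, hs, rfl⟩
      exact ⟨hs, s, rfl⟩
    · rintro ⟨hs, s, rfl⟩
      exact ⟨s, hs, rfl⟩
  have hdis : Disjoint L (univ.image U) := by
    rw [disjoint_left]
    intro i hi hi2
    obtain ⟨s, _, rfl⟩ := mem_image.mp hi2
    exact hUL s hi
  have e2 : (L ∪ univ.image U).card = L.card + m := by
    rw [card_union_of_disjoint hdis, card_image_of_injective _ hU, card_univ, Fintype.card_fin]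
  have e3 : (R ∩ (L ∪ univ.image U)).card = (R ∩ L).card + (R ∩ univ.image U).card := by
    rw [inter_union_distrib_left, card_union_of_disjoint]
    exact hdis.mono inter_subset_right inter_subset_right
  have e4 : (L ∪ univ.image U).card ≤ (R ∩ (L ∪ univ.image U)).card + Rᶜ.card := by
    calc (L ∪ univ.image U).card ≤ ((R ∩ (L ∪ univ.image U)) ∪ Rᶜ).card := by
          apply card_le_card
          intro i hi
          by_cases h : i ∈ R
          · exact mem_union_left _ (mem_inter.mpr ⟨h, hi⟩)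
          · exact mem_union_right _ (mem_compl.mpr h)
      _ ≤ _ := card_union_le _ _
  have e5 : Rᶜ.card = n - R.card := by rw [card_compl, Fintype.card_fin]
  omega

/-- the lower halves of two bundles -/
theorem cnt2 {n m s₀ : ℕ} {R : Finset (Fin n)} {U V : Fin m → Fin n} (hU : Function.Injective U)
    (hV : Function.Injective V) (hUV : ∀ s s', U s ≠ V s') {t : ℕ} (hR : n ≤ R.card + t)
    (hs : s₀ ≤ m) :
    2 * s₀ ≤ (univ.filter fun s : Fin m => s.1 < s₀ ∧ U s ∈ R).card +
      (univ.filter fun s : Fin m => s.1 < s₀ ∧ V s ∈ R).card + t := by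
  classical
  have hc : (univ.filter fun s : Fin m => s.1 < s₀).card = s₀ := by
    have := Fin.card_filter_val_lt (m := s₀) (n := m)
    rw [this]
    omega
  set I := univ.filter fun s : Fin m => s.1 < s₀ with hI
  have e1 : ∀ W : Fin m → Fin n, Function.Injective W →
      (univ.filter fun s : Fin m => s.1 < s₀ ∧ W s ∈ R).card = (R ∩ I.image W).card := by
    intro W hW
    rw [← card_image_of_injective _ hW]
    congr 1
    ext i
    simp only [mem_image, mem_filter, mem_univ, true_and, mem_inter, hI]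
    constructor
    · rintro ⟨s, hs, rfl⟩
      exact ⟨hs.2, s, hs.1, rfl⟩
    · rintro ⟨hs, s, hs1, rfl⟩
      exact ⟨s, ⟨hs1, hs⟩, rfl⟩
  have hdis : Disjoint (I.image U) (I.image V) := by
    rw [disjoint_left]
    intro i hi hi2
    obtain ⟨s, _, rfl⟩ := mem_image.mp hi
    obtain ⟨s', _, h⟩ := mem_image.mp hi2
    exact hUV s s' h.symm
  have e2 : (I.image U ∪ I.image V).card = 2 * s₀ := by
    rw [card_union_of_disjoint hdis, card_image_of_injective _ hU, card_image_of_injective _ hV, hc]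
    ring
  have e3 : (R ∩ (I.image U ∪ I.image V)).card = (R ∩ I.image U).card + (R ∩ I.image V).card := by
    rw [inter_union_distrib_left, card_union_of_disjoint]
    exact hdis.mono inter_subset_right inter_subset_right
  have e4 : (I.image U ∪ I.image V).card ≤ (R ∩ (I.image U ∪ I.image V)).card + Rᶜ.card := by
    calc (I.image U ∪ I.image V).card ≤ ((R ∩ (I.image U ∪ I.image V)) ∪ Rᶜ).card := by
          apply card_le_card
          intro i hi
          by_cases h : i ∈ R
          · exact mem_union_left _ (mem_inter.mpr ⟨h, hi⟩)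
          · exact mem_union_right _ (mem_compl.mpr h)
      _ ≤ _ := card_union_le _ _
  have e5 : Rᶜ.card = n - R.card := by rw [card_compl, Fintype.card_fin]
  rw [e1 U hU, e1 V hV]
  omega

end AsmL

open AsmL in
theorem asmA (hBASE : S_BASE) (hPLACE : S_PLACE) (hFINB : S_FINB) (hGEN : S_GEN) (hSUM : S_SUM) :
    S_A := by
  classical
  obtain ⟨k₀, hb⟩ := hBASE
  refine ⟨max k₀ 16, ?_⟩
  intro D n k hD hk hn
  obtain ⟨m, r₁, r₂, N₀, c, hm, hm16, hn', hc, hkc, hN₀, hnN, -⟩ :=
    params (le_trans (le_max_right _ _) hD) hk hn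
  obtain ⟨E, hE1, hE2⟩ := hb N₀ D (le_trans (le_max_left _ _) hD) hN₀
  have hP := hPLACE N₀ E D m r₁ r₂ hE1 (by omega)
  rw [← hn', ← hc] at hP
  obtain ⟨a, B, Q, _, x₁, x₂, L, U, V, hS, hQ, hx, hdisj, hL, hUi, hVi, hUV, hUL, hVL, hst1, hst2⟩ := hP
  refine ⟨a, B, hS, ?_⟩
  intro N a' B' hS' hnear k' hk1 hk2
  have ht : k / (32 * (D + 1)) = m / 32 := by
    rw [hm, Nat.div_div_eq_div_mul, mul_comm]
  have ht2 : k / (16 * (D + 1)) = m / 16 := by
    rw [hm, Nat.div_div_eq_div_mul, mul_comm]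
  rw [ht] at hnear
  rw [ht2] at hk1 hk2
  obtain ⟨R, g, hg, hag, hR1, hR2⟩ := hnear
  have hRN : R.card ≤ N := by
    have := card_le_card_of_injOn (s := R) (t := (univ : Finset (Fin N))) g
      (fun _ _ => mem_coe.mpr (mem_univ _)) hg
    simpa using this
  have hnm : c + m ≤ n ∧ k' < N := by
    have h1 : D * m + m ≤ N₀ * m := by
      have : (D + 1) * m ≤ N₀ * m := Nat.mul_le_mul_right m (by omega)
      linarith [this, (by ring : (D + 1) * m = D * m + m)]
    constructor <;> omega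
  have key : ∀ q : Q, m ≤ 4 * (brk a' B' k' ∩ Set.Ioo (x₁ q) (x₂ q)).ncard := by
    intro q
    have hRL : (R ∩ L q).card ≤ c := (card_le_card inter_subset_right).trans (hL q).le
    have hlow : ∀ W : Fin m → Fin n,
        (univ.filter fun s : Fin m => s.1 < m / 2 ∧ W s ∈ R).card ≤ m / 2 := by
      intro W
      have h1 : (univ.filter fun s : Fin m => s.1 < m / 2).card = m / 2 := by
        rw [Fin.card_filter_val_lt]
        omega
      refine le_trans (card_le_card ?_) h1.le
      intro s hs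
      rw [mem_filter] at hs ⊢
      exact ⟨hs.1, hs.2.1⟩
    have c1 := cnt (hUi q) (hUL q) hR1
    have c2 := cnt (hVi q) (hVL q) hR1
    have c3 := cnt2 (hUi q) (hVi q) (hUV q) hR1 (show m / 2 ≤ m by omega)
    rw [hL q] at c1 c2
    have l1 := hlow (U q)
    have l2 := hlow (V q)
    have := hGEN n N m a B a' B' R g (L q) (U q) (V q) (x₁ q) (x₂ q) k' (m / 2) (hx q) hS' hg hag
      (hUi q) (hVi q) (hUV q) (hUL q) (hVL q) (hst1 q) (hst2 q) hnm.2 (by omega) (by omega)
      (by omega) (by omega)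
    omega
  obtain ⟨s1, s2⟩ := hSUM N a' B' k' Q x₁ x₂ univ (hFINB N a' B' hS' k' hnm.2) hdisj
  refine ⟨s1, ?_⟩
  have s3 : E * m ≤ 4 * (psi a' B' k').toNat := by
    calc E * m = ∑ _q : Q, m := by rw [sum_const, card_univ, hQ, smul_eq_mul]
      _ ≤ ∑ q : Q, 4 * (brk a' B' k' ∩ Set.Ioo (x₁ q) (x₂ q)).ncard := sum_le_sum fun q _ => key q
      _ = 4 * ∑ q : Q, (brk a' B' k' ∩ Set.Ioo (x₁ q) (x₂ q)).ncard := by rw [mul_sum]
      _ ≤ _ := Nat.mul_le_mul_left 4 s2
  set α : ℝ := (D : ℝ) ^ (1 / Real.log (Real.log (D : ℝ)) ^ 5) with hα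
  have hα0 : 0 ≤ α := Real.rpow_nonneg (Nat.cast_nonneg D) _
  have r1 : (n : ℝ) ≤ 2 * (N₀ * m) := by exact_mod_cast hnN
  have r2 : (E : ℝ) * m ≤ 4 * ((psi a' B' k').toNat : ℝ) := by exact_mod_cast s3
  have hm0 : (0 : ℝ) ≤ m := Nat.cast_nonneg m
  calc (n : ℝ) / 8 * α ≤ (2 * (N₀ * m)) / 8 * α := by
        apply mul_le_mul_of_nonneg_right _ hα0
        linarith
    _ = ((N₀ : ℝ) * α) * m / 4 := by ring
    _ ≤ (E : ℝ) * m / 4 := by
        have := mul_le_mul_of_nonneg_right hE2 hm0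
        linarith
    _ ≤ _ := by linarith

end Pool.Agent.Helper31K9.BU
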