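import Mathlib

/-!
# Asymptotic inequalities for the second part
-/

set_option autoImplicit false

namespace Pool.Agent.Helper31K9.BU.AsyL

open Filter Topology Real

/-- first inequality: `20 exp (- (2 (m / 16)^2 / (2 k))) ≤ exp (- k^(1/3))` -/
theorem asy1 : ∀ᶠ k : ℕ in atTop, ∀ D m : ℕ, D ^ 4 ≤ k → k < (D + 1) ^ 4 → m = k / (D + 1) →
    16 * (D + 1) ≤ k ∧
    10 * 2 * Real.exp (-(2 * ((m : ℝ) / 16) ^ 2 / (2 * k))) ≤ Real.exp (-(k : ℝ) ^ (1 / 3 : ℝ)) := by
  have h1 : ∀ᶠ x : ℝ in atTop, x ^ 4 * 20 ≤ Real.exp x := by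
    have := (isLittleO_pow_exp_atTop (n := 4)).bound (show (0 : ℝ) < 1 / 20 by norm_num)
    filter_upwards [this, eventually_ge_atTop (0 : ℝ)] with x hx h0
    rw [Real.norm_of_nonneg (by positivity), Real.norm_of_nonneg (Real.exp_pos x).le] at hx
    linarith
  -- `y = k^(1/12)`
  have h2 : Tendsto (fun k : ℕ => (k : ℝ) ^ (1 / 12 : ℝ)) atTop atTop :=
    (tendsto_rpow_atTop (by norm_num)).comp tendsto_natCast_atTop_atTop
  have h3 : Tendsto (fun k : ℕ => (k : ℝ) ^ (1 / 3 : ℝ)) atTop atTop :=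
    (tendsto_rpow_atTop (by norm_num)).comp tendsto_natCast_atTop_atTop
  filter_upwards [h2.eventually_ge_atTop 100, h3.eventually h1, eventually_ge_atTop 1] with k hy hx hk1
    D m hD1 hD2 hm
  set y : ℝ := (k : ℝ) ^ (1 / 12 : ℝ) with hyd
  have hk0 : (0 : ℝ) ≤ k := Nat.cast_nonneg k
  have hy0 : 0 < y := by linarith
  have ey : ∀ j : ℕ, (k : ℝ) ^ ((j : ℝ) / 12) = y ^ j := by
    intro j
    rw [hyd, ← Real.rpow_natCast, ← Real.rpow_mul hk0]
    congr 1
    ring
  have hky : (k : ℝ) = y ^ 12 := by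
    have := ey 12
    norm_num at this
    exact this
  have h13 : (k : ℝ) ^ (1 / 3 : ℝ) = y ^ 4 := by
    have := ey 4
    norm_num at this
    rw [← this]
  have hD : (D : ℝ) ≤ y ^ 3 := by
    have : (D : ℝ) ^ 4 ≤ (y ^ 3) ^ 4 := by
      rw [← pow_mul, ← hky]
      exact_mod_cast hD1
    exact le_of_pow_le_pow_left₀ (by norm_num) (by positivity) this
  have hDk : (16 : ℝ) * (D + 1) ≤ k := by
    rw [hky]
    have : y ^ 12 = y ^ 3 * y ^ 9 := by ring
    have h9 : (100 : ℝ) ^ 9 ≤ y ^ 9 := pow_le_pow_left₀ (by norm_num) hy 9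
    have h3' : (100 : ℝ) ^ 3 ≤ y ^ 3 := pow_le_pow_left₀ (by norm_num) hy 3
    rw [this]
    nlinarith
  refine ⟨by exact_mod_cast hDk, ?_⟩
  have hm1 : (k : ℝ) < (D + 1) * (m + 1) := by
    have := Nat.lt_mul_div_succ k (show 0 < D + 1 by omega)
    rw [← hm] at this
    exact_mod_cast this
  have hm2 : y ^ 9 / 4 ≤ m := by
    by_contra hcon
    push Not at hcon
    have h3' : (100 : ℝ) ^ 3 ≤ y ^ 3 := pow_le_pow_left₀ (by norm_num) hy 3
    have h9 : (100 : ℝ) ^ 9 ≤ y ^ 9 := pow_le_pow_left₀ (by norm_num) hy 9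
    have hm0 : (0 : ℝ) ≤ m := Nat.cast_nonneg m
    have : ((D : ℝ) + 1) * (m + 1) ≤ (2 * y ^ 3) * (y ^ 9 / 2) := by
      apply mul_le_mul
      · linarith
      · linarith
      · linarith
      · positivity
    have e : (2 * y ^ 3) * (y ^ 9 / 2) = y ^ 12 := by ring
    rw [e, ← hky] at this
    linarith
  have hmain : y ^ 4 + 20 ≤ 2 * ((m : ℝ) / 16) ^ 2 / (2 * k) := by
    rw [hky, le_div_iff₀ (by positivity)]
    have h4 : (y ^ 9 / 4) ^ 2 ≤ (m : ℝ) ^ 2 := pow_le_pow_left₀ (by positivity) hm2 2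
    have h6 : (100 : ℝ) ^ 2 ≤ y ^ 2 := pow_le_pow_left₀ (by norm_num) hy 2
    have h44 : (100 : ℝ) ^ 4 ≤ y ^ 4 := pow_le_pow_left₀ (by norm_num) hy 4
    have h5 : (y ^ 4 + 20) * (2 * y ^ 12) ≤ y ^ 18 / 2048 := by
      have e1 : y ^ 18 = y ^ 2 * y ^ 4 * y ^ 12 := by ring
      rw [e1]
      have h7 : (y ^ 4 + 20) * 2 ≤ y ^ 2 * y ^ 4 / 2048 := by nlinarith
      have h8 : (0 : ℝ) < y ^ 12 := by positivity
      nlinarith
    have e2 : 2 * ((m : ℝ) / 16) ^ 2 = (m : ℝ) ^ 2 / 128 := by ring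
    have e3 : (y ^ 9 / 4) ^ 2 = y ^ 18 / 16 := by ring
    rw [e2]
    rw [e3] at h4
    linarith
  rw [h13]
  calc 10 * 2 * Real.exp (-(2 * ((m : ℝ) / 16) ^ 2 / (2 * k))) ≤
        Real.exp 20 * Real.exp (-(y ^ 4 + 20)) := by
        apply mul_le_mul
        · have := Real.add_one_le_exp (20 : ℝ)
          linarith
        · exact Real.exp_le_exp.mpr (by linarith)
        · exact (Real.exp_pos _).le
        · exact (Real.exp_pos _).le
    _ = Real.exp (-y ^ 4) := by
        rw [← Real.exp_add]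
        congr 1
        ring

/-- second inequality -/
theorem asy2 : ∀ᶠ k : ℕ in atTop, ∀ D : ℕ, k < (D + 1) ^ 4 → D ^ 4 ≤ k →
    32 * (k : ℝ) ^ (1 / Real.log (Real.log (k : ℝ)) ^ 6) ≤
      (D : ℝ) ^ (1 / Real.log (Real.log (D : ℝ)) ^ 5) := by
  have hl : Tendsto (fun k : ℕ => Real.log (k : ℝ)) atTop atTop :=
    Real.tendsto_log_atTop.comp tendsto_natCast_atTop_atTop
  have hll : Tendsto (fun k : ℕ => Real.log (Real.log (k : ℝ))) atTop atTop :=
    Real.tendsto_log_atTop.comp hl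
  have h1 : ∀ᶠ z : ℝ in atTop, z ^ 6 * 4 ≤ Real.exp z := by
    have := (isLittleO_pow_exp_atTop (n := 6)).bound (show (0 : ℝ) < 1 / 4 by norm_num)
    filter_upwards [this, eventually_ge_atTop (0 : ℝ)] with x hx h0
    rw [Real.norm_of_nonneg (by positivity), Real.norm_of_nonneg (Real.exp_pos x).le] at hx
    linarith
  filter_upwards [hll.eventually h1, hll.eventually_ge_atTop 10, hl.eventually_ge_atTop 100,
    eventually_ge_atTop 1] with k hz1 hz10 hk100 hk1 D hD hD'
  set z := Real.log (Real.log (k : ℝ)) with hz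
  set x := Real.log (k : ℝ) with hx
  have hk0 : (0 : ℝ) < k := by exact_mod_cast hk1
  have hx0 : 0 < x := by linarith
  have hez : Real.exp z = x := Real.exp_log hx0
  rw [hez] at hz1
  have hD0 : 0 < D := by
    rcases Nat.eq_zero_or_pos D with h | h
    · exfalso
      subst h
      have : k = 0 := by omega
      omega
    · exact h
  have hD0' : (0 : ℝ) < D := by exact_mod_cast hD0
  have hlD : x / 5 ≤ Real.log D := by
    have h2 : (k : ℝ) ≤ (2 * D) ^ 4 := by
      have : k ≤ (2 * D) ^ 4 := hD.le.trans (Nat.pow_le_pow_left (by omega) 4)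
      exact_mod_cast this
    have h3 : x ≤ 4 * Real.log (2 * D) := by
      rw [hx]
      calc Real.log (k : ℝ) ≤ Real.log ((2 * D) ^ 4) := Real.log_le_log hk0 h2
        _ = 4 * Real.log (2 * D) := by rw [Real.log_pow]; norm_num
    rw [Real.log_mul (by norm_num) hD0'.ne'] at h3
    have h4 : Real.log 2 < 1 := by
      have := Real.log_two_lt_d9
      linarith
    linarith
  have hlD2 : Real.log D ≤ x := by
    rw [hx]
    apply Real.log_le_log hD0'
    have : D ≤ k := by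
      calc D = D ^ 1 := (pow_one D).symm
        _ ≤ D ^ 4 := Nat.pow_le_pow_right hD0 (by norm_num)
        _ ≤ k := hD'
    exact_mod_cast this
  have hlD0 : 1 < Real.log D := by linarith
  have hllD0 : 0 < Real.log (Real.log D) := Real.log_pos hlD0
  have hllD : Real.log (Real.log D) ≤ z := Real.log_le_log (by linarith) hlD2
  have hz0 : 0 < z := by linarith
  have e1 : Real.log (32 * (k : ℝ) ^ (1 / z ^ 6)) = Real.log 32 + x / z ^ 6 := by
    rw [Real.log_mul (by norm_num) (Real.rpow_pos_of_pos hk0 _).ne', Real.log_rpow hk0]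
    ring
  have e2 : Real.log ((D : ℝ) ^ (1 / Real.log (Real.log (D : ℝ)) ^ 5)) =
      Real.log D / Real.log (Real.log (D : ℝ)) ^ 5 := by
    rw [Real.log_rpow hD0']
    ring
  have h32 : Real.log 32 ≤ 4 := by
    have : Real.log 32 = 5 * Real.log 2 := by
      rw [show (32 : ℝ) = 2 ^ 5 by norm_num, Real.log_pow]; norm_num
    rw [this]
    have := Real.log_two_lt_d9
    linarith
  have hz6 : 0 < z ^ 6 := by positivity
  have h4 : (4 : ℝ) ≤ x / z ^ 6 := by
    rw [le_div_iff₀ hz6]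
    linarith
  have h5 : 2 * (x / z ^ 6) ≤ Real.log D / Real.log (Real.log (D : ℝ)) ^ 5 := by
    calc 2 * (x / z ^ 6) = (2 / z) * (x / z ^ 5) := by
          field_simp
      _ ≤ (1 / 5) * (x / z ^ 5) := by
          apply mul_le_mul_of_nonneg_right _ (by positivity)
          rw [div_le_div_iff₀ hz0 (by norm_num)]
          linarith
      _ = (x / 5) / z ^ 5 := by ring
      _ ≤ Real.log D / z ^ 5 := div_le_div_of_nonneg_right hlD (by positivity)
      _ ≤ Real.log D / Real.log (Real.log (D : ℝ)) ^ 5 := by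
          apply div_le_div_of_nonneg_left (by linarith) (by positivity)
          exact pow_le_pow_left₀ hllD0.le hllD 5
  have h6 : Real.log (32 * (k : ℝ) ^ (1 / z ^ 6)) ≤
      Real.log ((D : ℝ) ^ (1 / Real.log (Real.log (D : ℝ)) ^ 5)) := by
    rw [e1, e2]
    linarith
  exact (Real.log_le_log_iff (by positivity) (Real.rpow_pos_of_pos hD0' _)).mp h6

end Pool.Agent.Helper31K9.BU.AsyL
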