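import Pool.Agent.Helper31K9.BU.AsmA
import Pool.Agent.Helper31K9.BU.Asy

/-!
# Assembly of the second part
-/

set_option autoImplicit false

namespace Pool.Agent.Helper31K9.BU

open Finset Filter Topology
open Pool.Agent.H189R2.Lev (ht cr)
open Pool.Agent.Results.MP_a08d0a_co.SmoothedLevel (Simple level psi)
open Pool.Agent.Y344.KD (sub simple_sub)

namespace AsmL

theorem card_filt {n m : ℕ} {R : Finset (Fin n)} {W : Fin m → Fin n} (hW : Function.Injective W)
    (I : Finset (Fin m)) :
    (I.filter fun s : Fin m => W s ∈ R).card = (R ∩ I.image W).card := by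
  classical
  rw [← card_image_of_injective _ hW]
  congr 1
  ext i
  simp only [mem_image, mem_filter, mem_inter]
  constructor
  · rintro ⟨s, hs, rfl⟩
    exact ⟨hs.2, s, hs.1, rfl⟩
  · rintro ⟨hs, s, hs1, rfl⟩
    exact ⟨s, ⟨hs1, hs⟩, rfl⟩

theorem card_inter_union {n : ℕ} {R A B : Finset (Fin n)} (h : Disjoint A B) :
    (R ∩ (A ∪ B)).card = (R ∩ A).card + (R ∩ B).card := by
  rw [inter_union_distrib_left, card_union_of_disjoint]
  exact h.mono inter_subset_right inter_subset_right

/-- position of an index in the increasing list of the elements of `R` -/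
theorem exists_pos {n : ℕ} (R : Finset (Fin n)) (h : R.Nonempty) :
    ∃ g : Fin n → Fin R.card, Set.InjOn g R ∧ ∀ i ∈ R, R.orderEmbOfFin rfl (g i) = i := by
  classical
  have hc : 0 < R.card := card_pos.mpr h
  refine ⟨fun i => if hi : i ∈ R then (R.orderIsoOfFin rfl).symm ⟨i, hi⟩ else ⟨0, hc⟩, ?_, ?_⟩
  · intro i hi j hj hij
    rw [mem_coe] at hi hj
    simp only [hi, hj, dif_pos] at hij
    have := (R.orderIsoOfFin rfl).symm.injective hij
    exact congrArg Subtype.val this
  · intro i hi
    simp only [hi, dif_pos]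
    rw [← Finset.coe_orderIsoOfFin_apply]
    simp

end AsmL

open AsmL in
theorem asmC (hBASE : S_BASE) (hPLACE : S_PLACE) (hFINB : S_FINB) (hGEN : S_GEN) (hSUM : S_SUM)
    (hHOEF : S_HOEF) : S_C := by
  classical
  obtain ⟨k₀, hb⟩ := hBASE
  obtain ⟨K, hK⟩ := (AsyL.asy1.and AsyL.asy2).exists_forall_of_atTop
  refine ⟨max K ((max k₀ 16 + 1) ^ 4), ?_⟩
  intro n k hk hn
  obtain ⟨hasy1, hasy2⟩ := hK k (le_trans (le_max_left _ _) hk)
  -- the parameter `D`
  obtain ⟨D, hD1, hD2⟩ : ∃ D : ℕ, D ^ 4 ≤ k ∧ k < (D + 1) ^ 4 := by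
    refine ⟨Nat.sqrt (Nat.sqrt k), ?_, ?_⟩
    · have h1 := Nat.sqrt_le' (Nat.sqrt k)
      have h2 := Nat.sqrt_le' k
      calc Nat.sqrt (Nat.sqrt k) ^ 4 = (Nat.sqrt (Nat.sqrt k) ^ 2) ^ 2 := by ring
        _ ≤ (Nat.sqrt k) ^ 2 := Nat.pow_le_pow_left h1 2
        _ ≤ k := h2
    · have h1 := Nat.succ_le_succ_sqrt' (Nat.sqrt k)
      have h2 := Nat.lt_succ_sqrt' k
      calc k < (Nat.sqrt k + 1) ^ 2 := h2
        _ ≤ ((Nat.sqrt (Nat.sqrt k) + 1) ^ 2) ^ 2 := Nat.pow_le_pow_left h1 2
        _ = _ := by ring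
  have hDb : max k₀ 16 ≤ D := by
    by_contra hcon
    push Not at hcon
    have h1 : (D + 1) ^ 4 ≤ (max k₀ 16 + 1) ^ 4 := Nat.pow_le_pow_left (by omega) 4
    have h2 := le_trans (le_max_right _ _) hk
    omega
  obtain ⟨m, r₁, r₂, N₀, c, hm, hm16, hn', hc, hkc, hN₀, hnN, hcm⟩ :=
    params (le_trans (le_max_right _ _) hDb) (hasy1 D _ hD1 hD2 rfl).1 hn
  have hexp := (hasy1 D m hD1 hD2 hm).2
  have hpow := hasy2 D hD2 hD1
  obtain ⟨E, hE1, hE2⟩ := hb N₀ D (le_trans (le_max_left _ _) hDb) hN₀
  have hD16 : 16 ≤ D := le_trans (le_max_right _ _) hDb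
  have hE0 : 0 < E := by
    have h1 : (0 : ℝ) < N₀ := by
      have : 0 < N₀ := by omega
      exact_mod_cast this
    have h2 : (0 : ℝ) < D := by
      have : 0 < D := by omega
      exact_mod_cast this
    have h3 := lt_of_lt_of_le (mul_pos h1 (Real.rpow_pos_of_pos h2 _)) hE2
    exact_mod_cast h3
  have hP := hPLACE N₀ E D m r₁ r₂ hE1 (by omega)
  rw [← hn', ← hc] at hP
  obtain ⟨a, B, Q, _, x₁, x₂, L, U, V, hS, hQ, hx, hdisj, hL, hUi, hVi, hUV, hUL, hVL, hst1, hst2⟩ := hP
  refine ⟨a, B, hS, ?_⟩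
  -- the five sets
  set I : Finset (Fin m) := univ.filter fun s : Fin m => s.1 < m / 2 with hI
  have hIc : I.card = m / 2 := by
    rw [hI, Fin.card_filter_val_lt]
    omega
  set S : Q → Fin 5 → Finset (Fin n) := fun q => ![L q ∪ I.image (U q), L q ∪ univ.image (U q),
    L q ∪ I.image (V q), L q ∪ univ.image (V q), I.image (U q) ∪ I.image (V q)] with hSdef
  have dLU : ∀ q (J : Finset (Fin m)), Disjoint (L q) (J.image (U q)) := by
    intro q J
    rw [disjoint_left]
    intro i hi hi2
    obtain ⟨s, _, rfl⟩ := mem_image.mp hi2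
    exact hUL q s hi
  have dLV : ∀ q (J : Finset (Fin m)), Disjoint (L q) (J.image (V q)) := by
    intro q J
    rw [disjoint_left]
    intro i hi hi2
    obtain ⟨s, _, rfl⟩ := mem_image.mp hi2
    exact hVL q s hi
  have dUV : ∀ q, Disjoint (I.image (U q)) (I.image (V q)) := by
    intro q
    rw [disjoint_left]
    intro i hi hi2
    obtain ⟨s, _, rfl⟩ := mem_image.mp hi
    obtain ⟨s', _, h⟩ := mem_image.mp hi2
    exact hUV q s s' h.symm
  have cS0 : ∀ q, (S q 0).card = c + m / 2 := fun q => by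
    show (L q ∪ I.image (U q)).card = _
    rw [card_union_of_disjoint (dLU q I), card_image_of_injective _ (hUi q), hIc, hL]
  have cS1 : ∀ q, (S q 1).card = c + m := fun q => by
    show (L q ∪ univ.image (U q)).card = _
    rw [card_union_of_disjoint (dLU q _), card_image_of_injective _ (hUi q), hL, card_univ,
      Fintype.card_fin]
  have cS2 : ∀ q, (S q 2).card = c + m / 2 := fun q => by
    show (L q ∪ I.image (V q)).card = _
    rw [card_union_of_disjoint (dLV q I), card_image_of_injective _ (hVi q), hIc, hL]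
  have cS3 : ∀ q, (S q 3).card = c + m := fun q => by
    show (L q ∪ univ.image (V q)).card = _
    rw [card_union_of_disjoint (dLV q _), card_image_of_injective _ (hVi q), hL, card_univ,
      Fintype.card_fin]
  have cS4 : ∀ q, (S q 4).card = 2 * (m / 2) := fun q => by
    show (I.image (U q) ∪ I.image (V q)).card = _
    rw [card_union_of_disjoint (dUV q), card_image_of_injective _ (hUi q),
      card_image_of_injective _ (hVi q), hIc]
    ring
  have cSle : ∀ q j, ((S q j).card : ℝ) ≤ 2 * k := by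
    intro q j
    have : (S q j).card ≤ 2 * k := by
      fin_cases j
      · have := cS0 q; simp only [Fin.zero_eta]; omega
      · have := cS1 q; simp only [Fin.mk_one]; omega
      · have := cS2 q; simp only [Fin.reduceFinMk]; omega
      · have := cS3 q; simp only [Fin.reduceFinMk]; omega
      · have := cS4 q; simp only [Fin.reduceFinMk]; omega
    exact_mod_cast this
  -- bad pairs
  set bad : Q → Fin 5 → Finset (Finset (Fin n)) := fun q j =>
    (univ : Finset (Finset (Fin n))).filter
      (fun R => (m : ℝ) / 16 ≤ |((R ∩ S q j).card : ℝ) - ((S q j).card : ℝ) / 2|) with hbad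
  have hk0 : (0 : ℝ) < 2 * k := by
    have : 0 < k := by omega
    have : (0 : ℝ) < k := by exact_mod_cast this
    linarith
  have hbadc : ∀ q j, ((bad q j).card : ℝ) ≤
      2 * 2 ^ n * Real.exp (-(2 * ((m : ℝ) / 16) ^ 2 / (2 * k))) := fun q j =>
    hHOEF n (S q j) (2 * k) (m / 16) hk0 (cSle q j) (by positivity)
  -- a family without bad sets at `q` has many breaks at `q`
  have hgood : ∀ (R : Finset (Fin n)) (q : Q), (∀ j, R ∉ bad q j) → k / 2 < R.card ∧
      m ≤ 8 * (brk (sub a R) (sub B R) (k / 2) ∩ Set.Ioo (x₁ q) (x₂ q)).ncard := by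
    intro R q hq
    have hq' : ∀ j, |((R ∩ S q j).card : ℝ) - ((S q j).card : ℝ) / 2| < (m : ℝ) / 16 := by
      intro j
      have := hq j
      rw [hbad] at this
      simp only [mem_filter, mem_univ, true_and, not_le] at this
      exact this
    have e0 : (R ∩ S q 0).card = (R ∩ L q).card +
        (univ.filter fun s : Fin m => s.1 < m / 2 ∧ U q s ∈ R).card := by
      show (R ∩ (L q ∪ I.image (U q))).card = _
      rw [card_inter_union (dLU q I), ← card_filt (hUi q) I, hI, filter_filter]
    have e1 : (R ∩ S q 1).card = (R ∩ L q).card +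
        (univ.filter fun s : Fin m => U q s ∈ R).card := by
      show (R ∩ (L q ∪ univ.image (U q))).card = _
      rw [card_inter_union (dLU q _), ← card_filt (hUi q) univ]
    have e2 : (R ∩ S q 2).card = (R ∩ L q).card +
        (univ.filter fun s : Fin m => s.1 < m / 2 ∧ V q s ∈ R).card := by
      show (R ∩ (L q ∪ I.image (V q))).card = _
      rw [card_inter_union (dLV q I), ← card_filt (hVi q) I, hI, filter_filter]
    have e3 : (R ∩ S q 3).card = (R ∩ L q).card +
        (univ.filter fun s : Fin m => V q s ∈ R).card := by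
      show (R ∩ (L q ∪ univ.image (V q))).card = _
      rw [card_inter_union (dLV q _), ← card_filt (hVi q) univ]
    have e4 : (R ∩ S q 4).card =
        (univ.filter fun s : Fin m => s.1 < m / 2 ∧ U q s ∈ R).card +
        (univ.filter fun s : Fin m => s.1 < m / 2 ∧ V q s ∈ R).card := by
      show (R ∩ (I.image (U q) ∪ I.image (V q))).card = _
      rw [card_inter_union (dUV q), ← card_filt (hUi q) I, ← card_filt (hVi q) I, hI, filter_filter,
        filter_filter]
    have b0 := abs_lt.mp (hq' 0)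
    have b1 := abs_lt.mp (hq' 1)
    have b2 := abs_lt.mp (hq' 2)
    have b3 := abs_lt.mp (hq' 3)
    have b4 := abs_lt.mp (hq' 4)
    rw [cS0 q] at b0
    rw [cS1 q] at b1
    rw [cS2 q] at b2
    rw [cS3 q] at b3
    rw [cS4 q] at b4
    -- in integers
    have d0 : 16 * (R ∩ S q 0).card < 8 * (c + m / 2) + m := by
      have := b0.2
      have h : (16 : ℝ) * (R ∩ S q 0).card < 8 * ((c + m / 2 : ℕ) : ℝ) + m := by linarith
      exact_mod_cast h
    have d2 : 16 * (R ∩ S q 2).card < 8 * (c + m / 2) + m := by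
      have := b2.2
      have h : (16 : ℝ) * (R ∩ S q 2).card < 8 * ((c + m / 2 : ℕ) : ℝ) + m := by linarith
      exact_mod_cast h
    have d1 : 8 * (c + m) < 16 * (R ∩ S q 1).card + m := by
      have := b1.1
      have h : (8 : ℝ) * ((c + m : ℕ) : ℝ) < 16 * (R ∩ S q 1).card + m := by linarith
      exact_mod_cast h
    have d3 : 8 * (c + m) < 16 * (R ∩ S q 3).card + m := by
      have := b3.1
      have h : (8 : ℝ) * ((c + m : ℕ) : ℝ) < 16 * (R ∩ S q 3).card + m := by linarith
      exact_mod_cast h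
    have d4 : 8 * (2 * (m / 2)) < 16 * (R ∩ S q 4).card + m := by
      have := b4.1
      have h : (8 : ℝ) * ((2 * (m / 2) : ℕ) : ℝ) < 16 * (R ∩ S q 4).card + m := by linarith
      exact_mod_cast h
    rw [e0] at d0
    rw [e1] at d1
    rw [e2] at d2
    rw [e3] at d3
    rw [e4] at d4
    have hRc : (R ∩ S q 1).card ≤ R.card := card_le_card inter_subset_left
    rw [e1] at hRc
    have hkR : k / 2 < R.card := by omega
    refine ⟨hkR, ?_⟩
    obtain ⟨g, hg1, hg2⟩ := exists_pos R (card_pos.mp (by omega))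
    have := hGEN n R.card m a B (sub a R) (sub B R) R g (L q) (U q) (V q) (x₁ q) (x₂ q) (k / 2)
      (m / 2) (hx q) (simple_sub hS R) hg1 (fun i hi => by
        unfold sub
        rw [hg2 i hi]
        exact ⟨rfl, rfl⟩) (hUi q) (hVi q) (hUV q) (hUL q) (hVL q) (hst1 q) (hst2 q) hkR (by omega)
      (by omega) (by omega) (by omega)
    omega
  -- families with more than half of the crossings bad
  set T : Finset (Finset (Fin n)) := (univ : Finset (Finset (Fin n))).filter
    (fun R => E < 2 * (univ.filter (fun q : Q => ∃ j, R ∈ bad q j)).card) with hT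
  have hTc : (T.card : ℝ) ≤ 2 ^ n * Real.exp (-(k : ℝ) ^ (1 / 3 : ℝ)) := by
    have h1 : (E : ℝ) * T.card ≤ 2 * ∑ q : Q, ∑ j : Fin 5, ((bad q j).card : ℝ) := by
      have h2 : E * T.card ≤ 2 * ∑ q : Q, ∑ j : Fin 5, (bad q j).card := by
        calc E * T.card = ∑ _R ∈ T, E := by rw [sum_const, smul_eq_mul, mul_comm]
          _ ≤ ∑ R ∈ T, 2 * (univ.filter (fun q : Q => ∃ j, R ∈ bad q j)).card := by
              apply sum_le_sum
              intro R hR
              rw [hT, mem_filter] at hR
              exact hR.2.le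
          _ ≤ ∑ R : Finset (Fin n), 2 * (univ.filter (fun q : Q => ∃ j, R ∈ bad q j)).card :=
              sum_le_sum_of_subset (subset_univ _)
          _ ≤ ∑ R : Finset (Fin n), 2 * ∑ q : Q, ∑ j : Fin 5, (if R ∈ bad q j then 1 else 0) := by
              apply sum_le_sum
              intro R _
              apply Nat.mul_le_mul_left
              rw [card_filter]
              apply sum_le_sum
              intro q _
              split_ifs with h
              · obtain ⟨j, hj⟩ := h
                calc 1 = (if R ∈ bad q j then 1 else 0) := by rw [if_pos hj]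
                  _ ≤ _ := single_le_sum (f := fun j => if R ∈ bad q j then 1 else 0)
                    (fun _ _ => Nat.zero_le _) (mem_univ j)
              · exact Nat.zero_le _
          _ = 2 * ∑ q : Q, ∑ j : Fin 5, (bad q j).card := by
              rw [← mul_sum, sum_comm]
              congr 1
              apply sum_congr rfl
              intro q _
              rw [sum_comm]
              apply sum_congr rfl
              intro j _
              rw [← card_filter]
              congr 1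
              ext R
              simp
      exact_mod_cast h2
    have h3 : ∑ q : Q, ∑ j : Fin 5, ((bad q j).card : ℝ) ≤
        E * (5 * (2 * 2 ^ n * Real.exp (-(2 * ((m : ℝ) / 16) ^ 2 / (2 * k))))) := by
      calc ∑ q : Q, ∑ j : Fin 5, ((bad q j).card : ℝ) ≤ ∑ _q : Q, ∑ _j : Fin 5,
            2 * 2 ^ n * Real.exp (-(2 * ((m : ℝ) / 16) ^ 2 / (2 * k))) :=
            sum_le_sum fun q _ => sum_le_sum fun j _ => hbadc q j
        _ = _ := by
            simp only [sum_const, card_univ, Fintype.card_fin, hQ, nsmul_eq_mul]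
            norm_num
    have hEpos : (0 : ℝ) < E := by exact_mod_cast hE0
    have h4 : (E : ℝ) * T.card ≤ E * (2 ^ n * Real.exp (-(k : ℝ) ^ (1 / 3 : ℝ))) := by
      calc (E : ℝ) * T.card ≤ 2 * (E * (5 * (2 * 2 ^ n *
            Real.exp (-(2 * ((m : ℝ) / 16) ^ 2 / (2 * k)))))) := by linarith
        _ = E * (2 ^ n * (10 * 2 * Real.exp (-(2 * ((m : ℝ) / 16) ^ 2 / (2 * k))))) := by ring
        _ ≤ _ := by
            apply mul_le_mul_of_nonneg_left _ hEpos.le
            exact mul_le_mul_of_nonneg_left hexp (by positivity)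
    exact le_of_mul_le_mul_left h4 hEpos
  refine le_trans ?_ hTc
  have hsub : ((univ : Finset (Finset (Fin n))).filter (fun R =>
        ¬ (psi (sub a R) (sub B R) (k / 2) ≠ ⊤ ∧
          (n : ℝ) * (k : ℝ) ^ (1 / Real.log (Real.log (k : ℝ)) ^ 6) ≤
            ((psi (sub a R) (sub B R) (k / 2)).toNat : ℝ)))) ⊆ T := by
    intro R hR
    rw [mem_filter] at hR
    rw [hT, mem_filter]
    refine ⟨mem_univ _, ?_⟩
    by_contra hcon
    push Not at hcon
    apply hR.2
    set G : Finset Q := univ.filter (fun q : Q => ¬ ∃ j, R ∈ bad q j) with hG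
    have hGc : E ≤ 2 * G.card := by
      have := Finset.card_filter_add_card_filter_not (s := (univ : Finset Q))
        (fun q : Q => ∃ j, R ∈ bad q j)
      rw [card_univ, hQ] at this
      have h2 : (univ.filter (fun q : Q => ¬ ∃ j, R ∈ bad q j)).card = G.card := rfl
      rw [h2] at this
      omega
    have hGg : ∀ q ∈ G, k / 2 < R.card ∧
        m ≤ 8 * (brk (sub a R) (sub B R) (k / 2) ∩ Set.Ioo (x₁ q) (x₂ q)).ncard := by
      intro q hq
      rw [hG, mem_filter] at hq
      apply hgood R q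
      intro j hj
      exact hq.2 ⟨j, hj⟩
    obtain ⟨q₀, hq₀⟩ : G.Nonempty := card_pos.mp (by omega)
    have hkR := (hGg q₀ hq₀).1
    obtain ⟨s1, s2⟩ := hSUM R.card (sub a R) (sub B R) (k / 2) Q x₁ x₂ G
      (hFINB _ _ _ (simple_sub hS R) _ hkR) hdisj
    refine ⟨s1, ?_⟩
    have s3 : G.card * m ≤ 8 * (psi (sub a R) (sub B R) (k / 2)).toNat := by
      calc G.card * m = ∑ _q ∈ G, m := by rw [sum_const, smul_eq_mul]
        _ ≤ ∑ q ∈ G, 8 * (brk (sub a R) (sub B R) (k / 2) ∩ Set.Ioo (x₁ q) (x₂ q)).ncard :=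
            sum_le_sum fun q hq => (hGg q hq).2
        _ = 8 * ∑ q ∈ G, (brk (sub a R) (sub B R) (k / 2) ∩ Set.Ioo (x₁ q) (x₂ q)).ncard := by
            rw [mul_sum]
        _ ≤ _ := Nat.mul_le_mul_left 8 s2
    have s4 : E * m ≤ 16 * (psi (sub a R) (sub B R) (k / 2)).toNat := by
      calc E * m ≤ (2 * G.card) * m := Nat.mul_le_mul_right m hGc
        _ = 2 * (G.card * m) := by ring
        _ ≤ 2 * (8 * (psi (sub a R) (sub B R) (k / 2)).toNat) := Nat.mul_le_mul_left 2 s3
        _ = _ := by ring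
    set β : ℝ := (k : ℝ) ^ (1 / Real.log (Real.log (k : ℝ)) ^ 6) with hβ
    set α : ℝ := (D : ℝ) ^ (1 / Real.log (Real.log (D : ℝ)) ^ 5) with hα
    have hβ0 : 0 ≤ β := Real.rpow_nonneg (Nat.cast_nonneg k) _
    have r1 : (n : ℝ) ≤ 2 * (N₀ * m) := by exact_mod_cast hnN
    have r2 : (E : ℝ) * m ≤ 16 * ((psi (sub a R) (sub B R) (k / 2)).toNat : ℝ) := by
      exact_mod_cast s4
    have hm0 : (0 : ℝ) ≤ m := Nat.cast_nonneg m
    have hNm : (0 : ℝ) ≤ N₀ * m := by positivity
    calc (n : ℝ) * β ≤ (2 * (N₀ * m)) * β := mul_le_mul_of_nonneg_right r1 hβ0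
      _ = (N₀ * m) * (32 * β) / 16 := by ring
      _ ≤ (N₀ * m) * α / 16 := by
          have := mul_le_mul_of_nonneg_left hpow hNm
          linarith
      _ = ((N₀ : ℝ) * α) * m / 16 := by ring
      _ ≤ (E : ℝ) * m / 16 := by
          have := mul_le_mul_of_nonneg_right hE2 hm0
          linarith
      _ ≤ _ := by linarith
  exact_mod_cast card_le_card hsub

end Pool.Agent.Helper31K9.BU
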