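import Pool.Agent.Results.MP_a08d0a_co.SmoothedLevel
import Pool.Agent.Y344.KD.Lines

/-!
# Stable lower bounds for single levels: statements (project BU)

Lines `y = a l * x + B l`, `l : Fin n`; `Simple`, `level`, `psi` are those of
`Pool/Agent/Results/MP_a08d0a_co/SmoothedLevel.lean`, `ht a B l x = a l * x + B l`,
`sub f R` is the family `f` restricted to `R` (`Pool/Agent/Y344/KD/Lines.lean`).
-/

set_option autoImplicit false

namespace Pool.Agent.Helper31K9.BU

open Finset Filter Topology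
open Pool.Agent.H189R2.Lev (ht cr)
open Pool.Agent.Results.MP_a08d0a_co.SmoothedLevel (Simple level psi)
open Pool.Agent.Y344.KD (sub)

/-- the abscissae near which the `k`-level does not follow a single line -/
def brk {N : ℕ} (a B : Fin N → ℝ) (k : ℕ) : Set ℝ :=
  {x : ℝ | ¬ ∃ l, level a B k =ᶠ[𝓝 x] ht a B l}

/-- the second family arises from the first one by deleting at most `t` lines and inserting at most
`t` lines -/
def Near {n N : ℕ} (a B : Fin n → ℝ) (a' B' : Fin N → ℝ) (t : ℕ) : Prop :=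
  ∃ (R : Finset (Fin n)) (g : Fin n → Fin N), Set.InjOn g R ∧
    (∀ i ∈ R, a' (g i) = a i ∧ B' (g i) = B i) ∧ n ≤ R.card + t ∧ N ≤ R.card + t

/-- `n` lines with distinct crossing abscissae `X r` of `E` crossings `a r`, `b r`, each with exactly
`k` lines below and no further line through it (slope of `b r` < slope of `a r`) -/
def Base (n E k : ℕ) : Prop :=
  ∃ (A R : Type) (_ : Fintype A) (_ : Fintype R) (s t : A → ℝ) (X : R → ℝ) (a b : R → A),
    Fintype.card A = n ∧ Fintype.card R = E ∧ Function.Injective X ∧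
    (∀ r, s (a r) * X r + t (a r) = s (b r) * X r + t (b r)) ∧
    (∀ r, s (b r) < s (a r)) ∧
    (∀ r c, c ≠ a r → c ≠ b r → s c * X r + t c ≠ s (a r) * X r + t (a r)) ∧
    (∀ r, {c | s c * X r + t c < s (a r) * X r + t (a r)}.ncard = k)

/-- the order of the heights: `L`, then `U 0 < U 1 < ⋯`, then `V 0 < V 1 < ⋯`, then the rest -/
def Stack {n m : ℕ} (h : Fin n → ℝ) (L : Finset (Fin n)) (U V : Fin m → Fin n) : Prop :=
  (∀ l ∈ L, ∀ s, h l < h (U s)) ∧ (∀ s s', s < s' → h (U s) < h (U s')) ∧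
  (∀ s s', h (U s) < h (V s')) ∧ (∀ s s', s < s' → h (V s) < h (V s')) ∧
  (∀ l, l ∉ L → (∀ s, l ≠ U s) → (∀ s, l ≠ V s) → ∀ s, h (V s) < h l)

/-- a simple arrangement of `n` lines with `E` crossings of two bundles of `m` lines, each with `c`
lines below -/
def Placed (n m c E : ℕ) : Prop :=
  ∃ (a B : Fin n → ℝ) (Q : Type) (_ : Fintype Q) (x₁ x₂ : Q → ℝ) (L : Q → Finset (Fin n))
    (U V : Q → Fin m → Fin n), Simple a B ∧ Fintype.card Q = E ∧
    (∀ q, x₁ q < x₂ q) ∧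
    (∀ q q', q ≠ q' → Disjoint (Set.Ioo (x₁ q) (x₂ q)) (Set.Ioo (x₁ q') (x₂ q'))) ∧
    (∀ q, (L q).card = c) ∧
    (∀ q, Function.Injective (U q)) ∧ (∀ q, Function.Injective (V q)) ∧
    (∀ q s s', U q s ≠ V q s') ∧ (∀ q s, U q s ∉ L q) ∧ (∀ q s, V q s ∉ L q) ∧
    (∀ q, Stack (fun l => ht a B l (x₁ q)) (L q) (U q) (V q)) ∧
    (∀ q, Stack (fun l => ht a B l (x₂ q)) (L q) (V q) (U q))

/-- [BASE], from `K9.RoundsStmt` (helper48): copy of the proof of `K9.AllK.main`
(`HasEv` instead of `Levels.e`; only the case `2 k + 1 ≤ n`) -/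
def S_BASE : Prop :=
  ∃ k₀ : ℕ, ∀ n k : ℕ, k₀ ≤ k → 2 * k + 1 ≤ n →
    ∃ E : ℕ, Base n E k ∧
      (n : ℝ) * (k : ℝ) ^ (1 / Real.log (Real.log (k : ℝ)) ^ 5) ≤ E

/-- [PLACE] every line is replaced by a bundle of `m` parallel lines at distance `ε`, `r₁` lines are
added far below, `r₂` far above; strict inequalities at finitely many abscissae
`X r ± η`; then `exists_near` (`Pool/Agent/Y344/KD/Pert.lean`) and `simple_of_GP`
(`Pool/Agent/Results/MP_a08d0a_co/IidLevel.lean`) -/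
def S_PLACE : Prop :=
  ∀ n E k m r₁ r₂ : ℕ, Base n E k → 0 < m → Placed (n * m + r₁ + r₂) m (k * m + r₁) E

/-- [FINB] `psi_le` (SmoothedLevel / IidLevel): the set is contained in a finite set -/
def S_FINB : Prop :=
  ∀ (N : ℕ) (a B : Fin N → ℝ), Simple a B → ∀ k < N, (brk a B k).Finite

/-- [CONT] the level is continuous: the minimum over the `(k + 1)`-sets of indices of the maximum of
the lines -/
def S_CONT : Prop :=
  ∀ (N : ℕ) (a B : Fin N → ℝ), ∀ k < N, Continuous (level a B k)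

/-- [CORE] from CONT, FINB: each line that passes from one side of the `k`-level to the other one
between `x₁` and `x₂` contains a break of the level in between: the last common zero `x` of the line
and the level is a break, otherwise the level follows another line `l` near `x`, only two lines pass
through the point, and the number of the lines below `l` changes at `x`. At most two lines pass
through each break. -/
def S_CORE : Prop :=
  ∀ (N : ℕ) (a B : Fin N → ℝ), Simple a B → ∀ k < N, ∀ x₁ x₂ : ℝ, x₁ < x₂ →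
    ∀ W : Finset (Fin N),
      (∀ l ∈ W, (ht a B l x₁ < level a B k x₁ ∧ level a B k x₂ < ht a B l x₂) ∨
        (level a B k x₁ < ht a B l x₁ ∧ ht a B l x₂ < level a B k x₂)) →
      W.card ≤ 2 * (brk a B k ∩ Set.Ioo x₁ x₂).ncard

/-- [GEN] from CORE: the crossing of two bundles in a family that contains the lines of `R` -/
def S_GEN : Prop :=
  ∀ (n N m : ℕ) (a B : Fin n → ℝ) (a' B' : Fin N → ℝ) (R : Finset (Fin n)) (g : Fin n → Fin N)
    (L : Finset (Fin n)) (U V : Fin m → Fin n) (x₁ x₂ : ℝ) (k s₀ : ℕ),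
    x₁ < x₂ → Simple a' B' → Set.InjOn g R → (∀ i ∈ R, a' (g i) = a i ∧ B' (g i) = B i) →
    Function.Injective U → Function.Injective V → (∀ s s', U s ≠ V s') →
    (∀ s, U s ∉ L) → (∀ s, V s ∉ L) →
    Stack (fun l => ht a B l x₁) L U V → Stack (fun l => ht a B l x₂) L V U → k < N →
    N + (R ∩ L).card + (univ.filter fun s : Fin m => s.1 < s₀ ∧ U s ∈ R).card ≤ k + R.card →
    k < (R ∩ L).card + (univ.filter fun s : Fin m => U s ∈ R).card →
    N + (R ∩ L).card + (univ.filter fun s : Fin m => s.1 < s₀ ∧ V s ∈ R).card ≤ k + R.card →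
    k < (R ∩ L).card + (univ.filter fun s : Fin m => V s ∈ R).card →
    (univ.filter fun s : Fin m => s.1 < s₀ ∧ U s ∈ R).card +
      (univ.filter fun s : Fin m => s.1 < s₀ ∧ V s ∈ R).card ≤
      2 * (brk a' B' k ∩ Set.Ioo x₁ x₂).ncard

/-- [SUM] breaks in disjoint intervals -/
def S_SUM : Prop :=
  ∀ (N : ℕ) (a B : Fin N → ℝ) (k : ℕ) (Q : Type) [Fintype Q] (x₁ x₂ : Q → ℝ) (G : Finset Q),
    (brk a B k).Finite →
    (∀ q q', q ≠ q' → Disjoint (Set.Ioo (x₁ q) (x₂ q)) (Set.Ioo (x₁ q') (x₂ q'))) →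
    psi a B k ≠ ⊤ ∧ ∑ q ∈ G, (brk a B k ∩ Set.Ioo (x₁ q) (x₂ q)).ncard ≤ (psi a B k).toNat

/-- [HOEF] Hoeffding's inequality for a random subset `R` of `Fin n` (`∑_R exp (λ (|R ∩ S| - |S| / 2))
= 2^n cosh (λ / 2)^|S|`, `Real.cosh_le_exp_half_sq`) -/
def S_HOEF : Prop :=
  ∀ (n : ℕ) (S : Finset (Fin n)) (K c : ℝ), 0 < K → (S.card : ℝ) ≤ K → 0 ≤ c →
    (((univ : Finset (Finset (Fin n))).filter
      (fun R => c ≤ |((R ∩ S).card : ℝ) - (S.card : ℝ) / 2|)).card : ℝ) ≤
      2 * 2 ^ n * Real.exp (-(2 * c ^ 2 / K))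

/-- the first part of the result -/
def S_A : Prop :=
  ∃ D₀ : ℕ, ∀ D n k : ℕ, D₀ ≤ D → 16 * (D + 1) ≤ k → 2 * k ≤ n →
    ∃ a B : Fin n → ℝ, Simple a B ∧
      ∀ (N : ℕ) (a' B' : Fin N → ℝ), Simple a' B' → Near a B a' B' (k / (32 * (D + 1))) →
        ∀ k' : ℕ, k ≤ k' + k / (16 * (D + 1)) → k' ≤ k + k / (16 * (D + 1)) →
          psi a' B' k' ≠ ⊤ ∧
          (n : ℝ) / 8 * (D : ℝ) ^ (1 / Real.log (Real.log (D : ℝ)) ^ 5) ≤
            ((psi a' B' k').toNat : ℝ)

/-- the second part of the result -/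
def S_C : Prop :=
  ∃ k₀ : ℕ, ∀ n k : ℕ, k₀ ≤ k → 2 * k ≤ n →
    ∃ a B : Fin n → ℝ, Simple a B ∧
      (((univ : Finset (Finset (Fin n))).filter (fun R =>
        ¬ (psi (sub a R) (sub B R) (k / 2) ≠ ⊤ ∧
          (n : ℝ) * (k : ℝ) ^ (1 / Real.log (Real.log (k : ℝ)) ^ 6) ≤
            ((psi (sub a R) (sub B R) (k / 2)).toNat : ℝ)))).card : ℝ) ≤
        2 ^ n * Real.exp (-(k : ℝ) ^ (1 / 3 : ℝ))

end Pool.Agent.Helper31K9.BU
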