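import Pool.Agent.Helper48K9.AllK
import Pool.Agent.Helper31K9.BU.St

/-!
# The leaf BASE of project BU from the numerical part
-/

set_option autoImplicit false

namespace Pool.Agent.Helper31K9.BU

open KLev Finset Filter Topology

theorem base_of_ev {n E k : ℕ} (h : K9.AllK.HasEv n E k) : Base n E k := by
  classical
  obtain ⟨A, R, _, _, P, S, _, c₁, d₁⟩ := h
  refine ⟨A, R, inferInstance, inferInstance, S.s, S.t, S.X, S.a, S.b, c₁, d₁, S.hX, S.tie, S.hs,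
    S.hne, fun r => ?_⟩
  refine Eq.trans ?_ (S.hcard r)
  rw [Finset.sum_boole, Nat.cast_id, ← Set.ncard_coe_finset]
  congr 1
  ext c
  simp

theorem base_of (h : K9.RoundsStmt) : S_BASE := by
  obtain ⟨a, ha⟩ := (K9.has_of_rounds h 4).exists_forall_of_atTop
  refine ⟨a + 3, fun n k h1 h2 => ?_⟩
  obtain ⟨N, E, P, hH, hN, hE⟩ := ha (k - 1) (by omega)
  have hx0 : (0:ℝ) < k := by
    have : 0 < k := by omega
    exact_mod_cast this
  have hE' := hE k (by exact_mod_cast (by omega : k - 1 ≤ k))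
    (by exact_mod_cast (by omega : k ≤ 8 * (k - 1)))
  refine ⟨n / (N + k + 1) * E, base_of_ev (K9.AllK.many' hH (by omega : N ≤ k + 1) (by omega)), ?_⟩
  have g1 : N + k + 1 ≤ 2 * k := by omega
  have g0 : 0 < N + k + 1 := by omega
  have g2 : N + k + 1 ≤ n := by omega
  generalize N + k + 1 = g at g0 g1 g2
  have g4 : n ≤ 4 * k * (n / g) := by
    have h5 : n < (n / g + 1) * g := Nat.lt_mul_of_div_lt (Nat.lt_succ_self _) g0
    have h6 : 1 ≤ n / g := Nat.div_pos g2 g0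
    have h7 : (n / g + 1) * g ≤ (2 * (n / g)) * (2 * k) := Nat.mul_le_mul (by omega) g1
    nlinarith
  set δ : ℝ := 1 / Real.log (Real.log (k : ℝ)) ^ 5 with hδ
  rw [Real.rpow_add hx0, Real.rpow_one] at hE'
  have g5 : (n:ℝ) ≤ 4 * k * ((n / g : ℕ) : ℝ) := by exact_mod_cast g4
  have hp : (0:ℝ) ≤ (k:ℝ) ^ δ := Real.rpow_nonneg hx0.le _
  have hd : (0:ℝ) ≤ ((n / g : ℕ) : ℝ) := Nat.cast_nonneg _
  calc (n:ℝ) * (k:ℝ) ^ δ ≤ (4 * k * ((n / g : ℕ) : ℝ)) * (k:ℝ) ^ δ :=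
        mul_le_mul_of_nonneg_right g5 hp
    _ = ((n / g : ℕ) : ℝ) * (4 * (k * (k:ℝ) ^ δ)) := by ring
    _ ≤ ((n / g : ℕ) : ℝ) * E := mul_le_mul_of_nonneg_left hE' hd
    _ = ((n / g * E : ℕ) : ℝ) := by push_cast; ring

end Pool.Agent.Helper31K9.BU
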