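import Pool.Agent.Helper48K9.Main
import Pool.Agent.Helper31K9.BU.BaseOf

/-!
# The leaf BASE of project BU
-/

set_option autoImplicit false

namespace Pool.Agent.Helper31K9.BU

theorem base : S_BASE := base_of K9.roundsStmt

end Pool.Agent.Helper31K9.BU
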