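import Pool.Agent.Helper31K9.BU.Sum

/-!
# Leaf CORE
-/

set_option autoImplicit false

namespace Pool.Agent.Helper31K9.BU

open Finset Filter Topology
open Pool.Agent.H189R2.Lev (ht cr)
open Pool.Agent.Results.MP_a08d0a_co.SmoothedLevel (Simple level psi)

namespace CoreL

theorem lev_spec {N : ℕ} (a B : Fin N → ℝ) {k : ℕ} (hk : k < N) (x : ℝ) :
    {l | ht a B l x < level a B k x}.ncard ≤ k ∧ k < {l | ht a B l x ≤ level a B k x}.ncard := by
  obtain ⟨i, h1, h2⟩ := Pool.Agent.Results.MP_a08d0a_co.IidLevel.exists_level a B hk x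
  have h3 : level a B k x = ht a B i x :=
    Pool.Agent.Results.MP_a08d0a_co.IidLevel.level_eq h1 h2
  rw [h3]
  exact ⟨h1, h2⟩

theorem continuous_ht {N : ℕ} (a B : Fin N → ℝ) (l : Fin N) : Continuous (ht a B l) := by
  unfold ht
  fun_prop

/-- a line that meets the level at `x` and does not follow it there -/
theorem brk_of {N : ℕ} {a B : Fin N → ℝ} (hS : Simple a B) {k : ℕ} (hk : k < N) {l : Fin N} {x : ℝ}
    (h0 : ht a B l x = level a B k x) (hfr : ∃ᶠ z in 𝓝 x, ht a B l z ≠ level a B k z) :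
    x ∈ brk a B k := by
  classical
  intro hcon
  obtain ⟨l', hl'⟩ := hcon
  have hll' : l' ≠ l := by
    rintro rfl
    apply hfr
    filter_upwards [hl'] with z hz hz'
    exact hz' hz.symm
  have hx' : ht a B l' x = ht a B l x := by
    rw [h0]
    exact hl'.self_of_nhds.symm
  have hslope : a l ≠ a l' := by
    intro h
    apply hS.1 l l' (Ne.symm hll') h
    unfold ht at hx'
    rw [h] at hx'
    linarith
  have hne : ∀ i, i ≠ l → i ≠ l' → ht a B i x ≠ ht a B l' x := by
    intro i hi hi' h
    exact hS.2 l' l i hll' (Ne.symm hi') (Ne.symm hi) ⟨x, hx', h.symm⟩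
  have hev : ∀ᶠ z in 𝓝 x, ∀ i, i ≠ l → i ≠ l' →
      ((ht a B i z < ht a B l' z ↔ ht a B i x < ht a B l' x) ∧ ht a B i z ≠ ht a B l' z) := by
    rw [eventually_all]
    intro i
    by_cases hi : i = l
    · exact Eventually.of_forall (fun _ h => absurd hi h)
    by_cases hi' : i = l'
    · exact Eventually.of_forall (fun _ _ h => absurd hi' h)
    rcases lt_or_gt_of_ne (hne i hi hi') with h | h
    · filter_upwards [(continuous_ht a B i).continuousAt.eventually_lt
        (continuous_ht a B l').continuousAt h] with z hz _ _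
      exact ⟨⟨fun _ => h, fun _ => hz⟩, hz.ne⟩
    · filter_upwards [(continuous_ht a B l').continuousAt.eventually_lt
        (continuous_ht a B i).continuousAt h] with z hz _ _
      exact ⟨⟨fun h2 => absurd h2 (not_lt.mpr hz.le), fun h2 => absurd h2 (not_lt.mpr h.le)⟩,
        hz.ne'⟩
  obtain ⟨ε, hε, hball⟩ := Metric.eventually_nhds_iff.mp (hev.and hl')
  -- the number of the lines below `l'` on both sides
  have hcount : ∀ z, dist z x < ε → z ≠ x → {i | ht a B i z < ht a B l' z}.ncard = k := by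
    intro z hz hzx
    obtain ⟨h1, h2⟩ := hball hz
    obtain ⟨h3, h4⟩ := lev_spec a B hk z
    rw [h2] at h3 h4
    have h5 : {i | ht a B i z ≤ ht a B l' z} ⊆ insert l' {i | ht a B i z < ht a B l' z} := by
      intro i hi
      by_cases hil' : i = l'
      · exact Set.mem_insert_iff.mpr (Or.inl hil')
      right
      have hi2 : ht a B i z ≤ ht a B l' z := hi
      refine lt_of_le_of_ne hi2 ?_
      by_cases hil : i = l
      · rw [hil]
        intro h
        have e1 : (a l - a l') * (z - x) = 0 := by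
          unfold ht at h hx'
          linear_combination h + hx'
        rcases mul_eq_zero.mp e1 with h6 | h6
        · exact hslope (by linarith)
        · exact hzx (by linarith)
      · exact (h1 i hil hil').2
    have h6 := (Set.ncard_le_ncard h5 (Set.toFinite _)).trans (Set.ncard_insert_le _ _)
    omega
  have hz1 : dist (x - ε / 2) x < ε := by
    rw [Real.dist_eq, abs_lt]
    constructor <;> linarith
  have hz2 : dist (x + ε / 2) x < ε := by
    rw [Real.dist_eq, abs_lt]
    constructor <;> linarith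
  have c1 := hcount _ hz1 (by linarith : x - ε / 2 < x).ne
  have c2 := hcount _ hz2 (by linarith : x < x + ε / 2).ne'
  have same : ∀ i, i ≠ l → (ht a B i (x - ε / 2) < ht a B l' (x - ε / 2) ↔
      ht a B i (x + ε / 2) < ht a B l' (x + ε / 2)) := by
    intro i hi
    by_cases hi' : i = l'
    · subst hi'
      simp
    · rw [((hball hz1).1 i hi hi').1, ((hball hz2).1 i hi hi').1]
  have e1 : ∀ z, ht a B l z - ht a B l' z = (a l - a l') * (z - x) := by
    intro z
    unfold ht at hx' ⊢
    linear_combination -hx'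
  have e2 := e1 (x - ε / 2)
  have e3 := e1 (x + ε / 2)
  rcases lt_or_gt_of_ne hslope with h | h
  · -- `l` above `l'` on the left, below on the right
    have hl1 : ht a B l' (x - ε / 2) < ht a B l (x - ε / 2) := by nlinarith
    have hl2 : ht a B l (x + ε / 2) < ht a B l' (x + ε / 2) := by nlinarith
    have hlt : {i | ht a B i (x - ε / 2) < ht a B l' (x - ε / 2)} ⊂
        {i | ht a B i (x + ε / 2) < ht a B l' (x + ε / 2)} := by
      rw [Set.ssubset_iff_of_subset]
      · exact ⟨l, hl2, fun h => absurd h (not_lt.mpr hl1.le)⟩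
      · intro i hi
        have hil : i ≠ l := by
          rintro rfl
          exact absurd hi (not_lt.mpr hl1.le)
        exact (same i hil).mp hi
    have := Set.ncard_lt_ncard hlt (Set.toFinite _)
    omega
  · have hl1 : ht a B l (x - ε / 2) < ht a B l' (x - ε / 2) := by nlinarith
    have hl2 : ht a B l' (x + ε / 2) < ht a B l (x + ε / 2) := by nlinarith
    have hlt : {i | ht a B i (x + ε / 2) < ht a B l' (x + ε / 2)} ⊂
        {i | ht a B i (x - ε / 2) < ht a B l' (x - ε / 2)} := by
      rw [Set.ssubset_iff_of_subset]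
      · exact ⟨l, hl1, fun h => absurd h (not_lt.mpr hl2.le)⟩
      · intro i hi
        have hil : i ≠ l := by
          rintro rfl
          exact absurd hi (not_lt.mpr hl2.le)
        exact (same i hil).mpr hi
    have := Set.ncard_lt_ncard hlt (Set.toFinite _)
    omega

/-- a line that changes sides meets the level in a break -/
theorem exists_break {N : ℕ} {a B : Fin N → ℝ} (hS : Simple a B) {k : ℕ} (hk : k < N)
    (hc : Continuous (level a B k)) {x₁ x₂ : ℝ} (hx : x₁ < x₂) {l : Fin N}
    (h : (ht a B l x₁ < level a B k x₁ ∧ level a B k x₂ < ht a B l x₂) ∨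
      (level a B k x₁ < ht a B l x₁ ∧ ht a B l x₂ < level a B k x₂)) :
    ∃ x ∈ brk a B k ∩ Set.Ioo x₁ x₂, ht a B l x = level a B k x := by
  set f : ℝ → ℝ := fun x => ht a B l x - level a B k x with hf
  have hfc : Continuous f := (continuous_ht a B l).sub hc
  have hzero : ∃ x ∈ Set.Icc x₁ x₂, f x = 0 := by
    rcases h with ⟨h1, h2⟩ | ⟨h1, h2⟩
    · have := intermediate_value_Icc hx.le hfc.continuousOn
        (show (0 : ℝ) ∈ Set.Icc (f x₁) (f x₂) from ⟨by simp only [hf]; linarith,
          by simp only [hf]; linarith⟩)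
      obtain ⟨x, hx1, hx2⟩ := this
      exact ⟨x, hx1, hx2⟩
    · have := intermediate_value_Icc' hx.le hfc.continuousOn
        (show (0 : ℝ) ∈ Set.Icc (f x₂) (f x₁) from ⟨by simp only [hf]; linarith,
          by simp only [hf]; linarith⟩)
      obtain ⟨x, hx1, hx2⟩ := this
      exact ⟨x, hx1, hx2⟩
  have hcomp : IsCompact (Set.Icc x₁ x₂ ∩ f ⁻¹' {0}) :=
    isCompact_Icc.inter_right (isClosed_singleton.preimage hfc)
  obtain ⟨x, hx⟩ := hcomp.exists_isGreatest (by
    obtain ⟨x, hx1, hx2⟩ := hzero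
    exact ⟨x, hx1, hx2⟩)
  obtain ⟨⟨hx1, hx2⟩, hx3⟩ := hx
  have hx2' : f x = 0 := hx2
  have hne1 : x ≠ x₁ := by
    rintro rfl
    simp only [hf] at hx2'
    rcases h with ⟨h1, h2⟩ | ⟨h1, h2⟩ <;> linarith
  have hne2 : x ≠ x₂ := by
    rintro rfl
    simp only [hf] at hx2'
    rcases h with ⟨h1, h2⟩ | ⟨h1, h2⟩ <;> linarith
  have hlt1 : x₁ < x := lt_of_le_of_ne hx1.1 (Ne.symm hne1)
  have hlt2 : x < x₂ := lt_of_le_of_ne hx1.2 hne2
  have heq : ht a B l x = level a B k x := by
    simp only [hf] at hx2'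
    linarith
  refine ⟨x, ⟨?_, hlt1, hlt2⟩, heq⟩
  apply brk_of hS hk heq
  have hev : ∀ᶠ z in 𝓝[>] x, ht a B l z ≠ level a B k z := by
    filter_upwards [Ioo_mem_nhdsGT hlt2] with z hz hz2
    have : z ≤ x := hx3 ⟨⟨hx1.1.trans hz.1.le, hz.2.le⟩, by
      show f z = 0
      simp only [hf]
      linarith⟩
    exact absurd hz.1 (not_lt.mpr this)
  exact (hev.frequently).filter_mono nhdsWithin_le_nhds

end CoreL

open CoreL in
theorem core (hCONT : S_CONT) (hFINB : S_FINB) : S_CORE := by
  classical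
  intro N a B hS k hk x₁ x₂ hx W hW
  have hfin : (brk a B k ∩ Set.Ioo x₁ x₂).Finite := (hFINB N a B hS k hk).inter_of_left _
  have h1 : ∀ l ∈ W, ∃ x ∈ brk a B k ∩ Set.Ioo x₁ x₂, ht a B l x = level a B k x :=
    fun l hl => exists_break hS hk (hCONT N a B k hk) hx (hW l hl)
  choose! φ hφ1 hφ2 using h1
  have h2 : W.card ≤ 2 * (W.image φ).card := by
    apply card_le_mul_card_image
    intro x hx
    by_contra hcon
    push Not at hcon
    obtain ⟨i, j, l, hi, hj, hl, hij, hil, hjl⟩ := two_lt_card_iff.mp hcon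
    rw [mem_filter] at hi hj hl
    apply hS.2 i j l hij hil hjl
    refine ⟨x, ?_, ?_⟩
    · have e1 := hφ2 i hi.1
      have e2 := hφ2 j hj.1
      rw [hi.2] at e1
      rw [hj.2] at e2
      rw [e1, e2]
    · have e1 := hφ2 i hi.1
      have e2 := hφ2 l hl.1
      rw [hi.2] at e1
      rw [hl.2] at e2
      rw [e1, e2]
  have h3 : (W.image φ).card ≤ (brk a B k ∩ Set.Ioo x₁ x₂).ncard := by
    rw [← Set.ncard_coe_finset]
    apply Set.ncard_le_ncard _ hfin
    intro x hx
    rw [mem_coe, mem_image] at hx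
    obtain ⟨l, hl, rfl⟩ := hx
    exact hφ1 l hl
  omega

end Pool.Agent.Helper31K9.BU
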