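import Pool.Agent.Helper31K9.BU.Core

/-!
# Leaf GEN
-/

set_option autoImplicit false

namespace Pool.Agent.Helper31K9.BU

open Finset Filter Topology
open Pool.Agent.H189R2.Lev (ht cr)
open Pool.Agent.Results.MP_a08d0a_co.SmoothedLevel (Simple level psi)

namespace GenL

/-- the lower members of the lower bundle are below the level -/
theorem low {n N m : ℕ} {h : Fin n → ℝ} {h' : Fin N → ℝ} {R : Finset (Fin n)} {g : Fin n → Fin N}
    (hg : Set.InjOn g R) (hag : ∀ i ∈ R, h' (g i) = h i) {L : Finset (Fin n)}
    {U V : Fin m → Fin n} (st : Stack h L U V) {k s₀ : ℕ}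
    {y : ℝ} (hy : k < {l | h' l ≤ y}.ncard)
    (hc : N + (R ∩ L).card + (univ.filter fun s : Fin m => s.1 < s₀ ∧ U s ∈ R).card ≤ k + R.card)
    {s : Fin m} (hs : s.1 < s₀) : h (U s) < y := by
  classical
  by_contra hcon
  push Not at hcon
  obtain ⟨st1, st2, st3, st4, st5⟩ := st
  set T : Finset (Fin m) := univ.filter fun s : Fin m => s.1 < s₀ ∧ U s ∈ R with hT
  have hsub : {l | h' l ≤ y} ⊆
      (((univ : Finset (Fin N)) \ R.image g ∪ ((R ∩ L) ∪ T.image U).image g : Finset (Fin N)) :
        Set (Fin N)) := by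
    intro l hl
    have hl' : h' l ≤ y := hl
    rw [mem_coe, mem_union]
    by_cases hlR : l ∈ R.image g
    · right
      obtain ⟨i, hi, rfl⟩ := mem_image.mp hlR
      apply mem_image_of_mem
      rw [hag i hi] at hl'
      rw [mem_union]
      by_cases hiL : i ∈ L
      · exact Or.inl (mem_inter.mpr ⟨hi, hiL⟩)
      right
      by_cases hiU : ∃ s', i = U s'
      · obtain ⟨s', rfl⟩ := hiU
        apply mem_image_of_mem
        rw [hT, mem_filter]
        refine ⟨mem_univ _, ?_, hi⟩
        by_contra hs'
        push Not at hs'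
        have : s < s' := Fin.lt_def.mpr (lt_of_lt_of_le hs hs')
        have := st2 s s' this
        linarith
      · exfalso
        push Not at hiU
        by_cases hiV : ∃ s', i = V s'
        · obtain ⟨s', rfl⟩ := hiV
          have := st3 s s'
          linarith
        · push Not at hiV
          have h1 := st5 i hiL hiU hiV s
          have h2 := st3 s s
          linarith
    · left
      rw [Finset.mem_sdiff]
      exact ⟨mem_univ _, hlR⟩
  have h1 := Set.ncard_le_ncard hsub (Set.toFinite _)
  rw [Set.ncard_coe_finset] at h1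
  have h2 := card_union_le ((univ : Finset (Fin N)) \ R.image g) (((R ∩ L) ∪ T.image U).image g)
  have h3 : ((univ : Finset (Fin N)) \ R.image g).card = N - R.card := by
    rw [card_sdiff_of_subset (subset_univ _), card_univ, Fintype.card_fin, card_image_of_injOn hg]
  have h4 : (((R ∩ L) ∪ T.image U).image g).card ≤ (R ∩ L).card + T.card :=
    card_image_le.trans ((card_union_le _ _).trans (Nat.add_le_add_left card_image_le _))
  have h5 : R.card ≤ N := by
    have := card_le_card_of_injOn (s := R) (t := (univ : Finset (Fin N))) g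
      (fun _ _ => mem_coe.mpr (mem_univ _)) hg
    simpa using this
  omega

/-- the members of the upper bundle are above the level -/
theorem high {n N m : ℕ} {h : Fin n → ℝ} {h' : Fin N → ℝ} {R : Finset (Fin n)} {g : Fin n → Fin N}
    (hg : Set.InjOn g R) (hag : ∀ i ∈ R, h' (g i) = h i) {L : Finset (Fin n)}
    {U V : Fin m → Fin n} (hU : Function.Injective U) (hUL : ∀ s, U s ∉ L)
    (st : Stack h L U V) {k : ℕ} {y : ℝ} (hy : {l | h' l < y}.ncard ≤ k)
    (hc : k < (R ∩ L).card + (univ.filter fun s : Fin m => U s ∈ R).card)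
    (s : Fin m) : y < h (V s) := by
  classical
  by_contra hcon
  push Not at hcon
  obtain ⟨st1, st2, st3, st4, st5⟩ := st
  set T : Finset (Fin m) := univ.filter fun s : Fin m => U s ∈ R with hT
  have hTR : T.image U ⊆ R := by
    intro i hi
    obtain ⟨s', hs', rfl⟩ := mem_image.mp hi
    rw [hT, mem_filter] at hs'
    exact hs'.2
  have hR : (R ∩ L) ∪ T.image U ⊆ R := union_subset inter_subset_left hTR
  have hsub : ((((R ∩ L) ∪ T.image U).image g : Finset (Fin N)) : Set (Fin N)) ⊆
      {l | h' l < y} := by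
    intro l hl
    rw [mem_coe, mem_image] at hl
    obtain ⟨i, hi, rfl⟩ := hl
    show h' (g i) < y
    rw [hag i (hR hi)]
    rcases mem_union.mp hi with hi | hi
    · have h1 := st1 i (mem_inter.mp hi).2 s
      have h2 := st3 s s
      linarith
    · obtain ⟨s', _, rfl⟩ := mem_image.mp hi
      have := st3 s' s
      linarith
  have h1 := Set.ncard_le_ncard hsub (Set.toFinite _)
  rw [Set.ncard_coe_finset, card_image_of_injOn (hg.mono (by exact_mod_cast hR)),
    card_union_of_disjoint, card_image_of_injective _ hU] at h1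
  · omega
  · rw [disjoint_left]
    intro i hi hi2
    obtain ⟨s', _, rfl⟩ := mem_image.mp hi2
    exact hUL s' (mem_inter.mp hi).2

end GenL

open GenL CoreL in
theorem gen (hCORE : S_CORE) : S_GEN := by
  classical
  intro n N m a B a' B' R g L U V x₁ x₂ k s₀ hx hS hg hag hU hV hUV hUL hVL st1 st2 hk c1 c2 c3 c4
  set TU : Finset (Fin m) := univ.filter fun s : Fin m => s.1 < s₀ ∧ U s ∈ R with hTU
  set TV : Finset (Fin m) := univ.filter fun s : Fin m => s.1 < s₀ ∧ V s ∈ R with hTV
  have hag' : ∀ x, ∀ i ∈ R, ht a' B' (g i) x = ht a B i x := by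
    intro x i hi
    unfold ht
    rw [(hag i hi).1, (hag i hi).2]
  have hUR : TU.image U ⊆ R := by
    intro i hi
    obtain ⟨s, hs, rfl⟩ := mem_image.mp hi
    rw [hTU, mem_filter] at hs
    exact hs.2.2
  have hVR : TV.image V ⊆ R := by
    intro i hi
    obtain ⟨s, hs, rfl⟩ := mem_image.mp hi
    rw [hTV, mem_filter] at hs
    exact hs.2.2
  obtain ⟨y1a, y1b⟩ := lev_spec a' B' hk x₁
  obtain ⟨y2a, y2b⟩ := lev_spec a' B' hk x₂
  have key := hCORE N a' B' hS k hk x₁ x₂ hx ((TU.image U ∪ TV.image V).image g) (by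
    intro l hl
    obtain ⟨i, hi, rfl⟩ := mem_image.mp hl
    rcases mem_union.mp hi with hi | hi
    · left
      have hiR := hUR hi
      obtain ⟨s, hs, rfl⟩ := mem_image.mp hi
      rw [hTU, mem_filter] at hs
      rw [hag' x₁ _ hiR, hag' x₂ _ hiR]
      exact ⟨low (h := fun l => ht a B l x₁) (h' := fun l => ht a' B' l x₁) hg (hag' x₁) st1 y1b c1
          hs.2.1,
        high (h := fun l => ht a B l x₂) (h' := fun l => ht a' B' l x₂) hg (hag' x₂) hV hVL st2
          y2a c4 s⟩
    · right
      have hiR := hVR hi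
      obtain ⟨s, hs, rfl⟩ := mem_image.mp hi
      rw [hTV, mem_filter] at hs
      rw [hag' x₁ _ hiR, hag' x₂ _ hiR]
      exact ⟨high (h := fun l => ht a B l x₁) (h' := fun l => ht a' B' l x₁) hg (hag' x₁) hU hUL
          st1 y1a c2 s,
        low (h := fun l => ht a B l x₂) (h' := fun l => ht a' B' l x₂) hg (hag' x₂) st2 y2b c3
          hs.2.1⟩)
  have hcard : ((TU.image U ∪ TV.image V).image g).card = TU.card + TV.card := by
    rw [card_image_of_injOn (hg.mono (by exact_mod_cast union_subset hUR hVR)),
      card_union_of_disjoint, card_image_of_injective _ hU, card_image_of_injective _ hV]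
    rw [disjoint_left]
    intro i hi hi2
    obtain ⟨s, _, rfl⟩ := mem_image.mp hi
    obtain ⟨s', _, h⟩ := mem_image.mp hi2
    exact hUV s s' h.symm
  rw [hcard] at key
  exact key

end Pool.Agent.Helper31K9.BU
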