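import Pool.Agent.Helper31K9.BU.St

/-!
# Leaf HOEF
-/

set_option autoImplicit false

namespace Pool.Agent.Helper31K9.BU

open Finset Real

namespace HoefL

/-- the moment generating function -/
theorem mgf {n : ℕ} (S : Finset (Fin n)) (u v : ℝ) :
    ∑ R : Finset (Fin n), u ^ (R ∩ S).card * v ^ (S.card - (R ∩ S).card) =
      2 ^ (n - S.card) * (u + v) ^ S.card := by
  classical
  have h := Fintype.prod_add (fun i : Fin n => if i ∈ S then u else 1)
    (fun i => if i ∈ S then v else 1)
  have h1 : ∏ i : Fin n, ((if i ∈ S then u else 1) + (if i ∈ S then v else 1)) =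
      2 ^ (n - S.card) * (u + v) ^ S.card := by
    have : ∀ i : Fin n, ((if i ∈ S then u else 1) + (if i ∈ S then v else 1) : ℝ) =
        if i ∈ S then u + v else 2 := by
      intro i
      split_ifs
      · rfl
      · norm_num
    rw [prod_congr rfl (fun i _ => this i), prod_ite, prod_const, prod_const]
    have e1 : (univ.filter fun i : Fin n => i ∈ S) = S := by
      ext i
      simp
    have e2 : (univ.filter fun i : Fin n => i ∉ S) = Sᶜ := by
      ext i
      simp
    rw [e1, e2, card_compl, Fintype.card_fin, mul_comm]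
  rw [h1] at h
  rw [h]
  apply sum_congr rfl
  intro R _
  have e3 : ∏ i ∈ R, (if i ∈ S then u else 1) = u ^ (R ∩ S).card := by
    rw [prod_ite, prod_const, prod_const_one, mul_one]
    congr 2
  have e4 : ∏ i ∈ univ \ R, (if i ∈ S then v else 1) = v ^ (S.card - (R ∩ S).card) := by
    rw [prod_ite, prod_const, prod_const_one, mul_one]
    have : (filter (fun i => i ∈ S) (univ \ R)) = S \ R := by
      ext i
      simp [and_comm]
    rw [this, card_sdiff, inter_comm]
  first
    | rw [e3, e4]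
    | (rw [e3]; congr 1; rw [← e4]; rfl)

theorem mgf2 {n : ℕ} (S : Finset (Fin n)) (t : ℝ) :
    ∑ R : Finset (Fin n), exp (t * (((R ∩ S).card : ℝ) - (S.card : ℝ) / 2)) ≤
      2 ^ n * exp (t ^ 2 * S.card / 8) := by
  have h1 := mgf S (exp (t / 2)) (exp (-(t / 2)))
  have h2 : ∀ R : Finset (Fin n), exp (t * (((R ∩ S).card : ℝ) - (S.card : ℝ) / 2)) =
      exp (t / 2) ^ (R ∩ S).card * exp (-(t / 2)) ^ (S.card - (R ∩ S).card) := by
    intro R
    have hle : (R ∩ S).card ≤ S.card := card_le_card inter_subset_right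
    rw [← exp_nat_mul, ← exp_nat_mul, ← exp_add]
    congr 1
    rw [Nat.cast_sub hle]
    ring
  rw [sum_congr rfl (fun R _ => h2 R), h1]
  have h3 : exp (t / 2) + exp (-(t / 2)) = 2 * cosh (t / 2) := by
    rw [cosh_eq]
    ring
  rw [h3, mul_pow]
  have hSn : S.card ≤ n := by
    have := card_le_univ S
    simpa using this
  have h4 : cosh (t / 2) ^ S.card ≤ exp (t ^ 2 * S.card / 8) := by
    calc cosh (t / 2) ^ S.card ≤ exp ((t / 2) ^ 2 / 2) ^ S.card :=
          pow_le_pow_left₀ (cosh_pos _).le (cosh_le_exp_half_sq _) _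
      _ = exp (t ^ 2 * S.card / 8) := by
          rw [← exp_nat_mul]
          congr 1
          ring
  calc (2 : ℝ) ^ (n - S.card) * (2 ^ S.card * cosh (t / 2) ^ S.card) =
        2 ^ n * cosh (t / 2) ^ S.card := by
        rw [← mul_assoc, ← pow_add, Nat.sub_add_cancel hSn]
    _ ≤ _ := mul_le_mul_of_nonneg_left h4 (by positivity)

/-- one tail -/
theorem tail {n : ℕ} (S : Finset (Fin n)) {K c : ℝ} (hK : 0 < K) (hS : (S.card : ℝ) ≤ K)
    (hc : 0 ≤ c) (σ : ℝ) (hσ : σ ^ 2 = 1) :
    (((univ : Finset (Finset (Fin n))).filter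
      (fun R => c ≤ σ * (((R ∩ S).card : ℝ) - (S.card : ℝ) / 2))).card : ℝ) ≤
      2 ^ n * exp (-(2 * c ^ 2 / K)) := by
  classical
  set t : ℝ := 4 * c / K with ht
  have ht0 : 0 ≤ t := by positivity
  have h1 := mgf2 S (t * σ)
  have h2 : ∀ R ∈ (univ : Finset (Finset (Fin n))).filter
      (fun R => c ≤ σ * (((R ∩ S).card : ℝ) - (S.card : ℝ) / 2)),
      exp (t * c) ≤ exp (t * σ * (((R ∩ S).card : ℝ) - (S.card : ℝ) / 2)) := by
    intro R hR
    rw [mem_filter] at hR
    apply exp_le_exp.mpr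
    rw [mul_assoc]
    exact mul_le_mul_of_nonneg_left hR.2 ht0
  have h3 : (((univ : Finset (Finset (Fin n))).filter
      (fun R => c ≤ σ * (((R ∩ S).card : ℝ) - (S.card : ℝ) / 2))).card : ℝ) * exp (t * c) ≤
      2 ^ n * exp (t ^ 2 * K / 8) := by
    calc _ = ∑ R ∈ (univ : Finset (Finset (Fin n))).filter
            (fun R => c ≤ σ * (((R ∩ S).card : ℝ) - (S.card : ℝ) / 2)), exp (t * c) := by
          rw [sum_const, nsmul_eq_mul]
      _ ≤ ∑ R ∈ (univ : Finset (Finset (Fin n))).filter
            (fun R => c ≤ σ * (((R ∩ S).card : ℝ) - (S.card : ℝ) / 2)),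
            exp (t * σ * (((R ∩ S).card : ℝ) - (S.card : ℝ) / 2)) := sum_le_sum h2
      _ ≤ ∑ R : Finset (Fin n), exp (t * σ * (((R ∩ S).card : ℝ) - (S.card : ℝ) / 2)) :=
          sum_le_sum_of_subset_of_nonneg (subset_univ _) (fun _ _ _ => (exp_pos _).le)
      _ ≤ 2 ^ n * exp ((t * σ) ^ 2 * S.card / 8) := h1
      _ ≤ 2 ^ n * exp (t ^ 2 * K / 8) := by
          apply mul_le_mul_of_nonneg_left _ (by positivity)
          apply exp_le_exp.mpr
          rw [mul_pow, hσ, mul_one]
          have := mul_le_mul_of_nonneg_left hS (sq_nonneg t)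
          linarith
  have h4 : exp (t ^ 2 * K / 8) = exp (-(2 * c ^ 2 / K)) * exp (t * c) := by
    rw [← exp_add]
    congr 1
    rw [ht]
    field_simp
    ring
  rw [h4, ← mul_assoc] at h3
  exact le_of_mul_le_mul_right h3 (exp_pos _)

end HoefL

open HoefL in
theorem hoef : S_HOEF := by
  classical
  intro n S K c hK hS hc
  have h1 := tail S hK hS hc 1 (by norm_num)
  have h2 := tail S hK hS hc (-1) (by norm_num)
  have h3 : ((univ : Finset (Finset (Fin n))).filter
      (fun R => c ≤ |((R ∩ S).card : ℝ) - (S.card : ℝ) / 2|)) ⊆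
      ((univ : Finset (Finset (Fin n))).filter
      (fun R => c ≤ 1 * (((R ∩ S).card : ℝ) - (S.card : ℝ) / 2))) ∪
      ((univ : Finset (Finset (Fin n))).filter
      (fun R => c ≤ (-1) * (((R ∩ S).card : ℝ) - (S.card : ℝ) / 2))) := by
    intro R hR
    rw [mem_filter] at hR
    rw [mem_union, mem_filter, mem_filter]
    rcases le_abs.mp hR.2 with h | h
    · left
      exact ⟨mem_univ _, by linarith⟩
    · right
      exact ⟨mem_univ _, by linarith⟩
  have h4 : (((univ : Finset (Finset (Fin n))).filter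
      (fun R => c ≤ |((R ∩ S).card : ℝ) - (S.card : ℝ) / 2|)).card : ℝ) ≤
      (((univ : Finset (Finset (Fin n))).filter
      (fun R => c ≤ 1 * (((R ∩ S).card : ℝ) - (S.card : ℝ) / 2))).card : ℝ) +
      (((univ : Finset (Finset (Fin n))).filter
      (fun R => c ≤ (-1) * (((R ∩ S).card : ℝ) - (S.card : ℝ) / 2))).card : ℝ) := by
    exact_mod_cast (card_le_card h3).trans (card_union_le _ _)
  linarith

end Pool.Agent.Helper31K9.BU
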