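import Pool.Agent.Helper31K9.BU.St
import Pool.Agent.Y344.KD.Pert
import Pool.Agent.Results.MP_a08d0a_co.IidLevel

/-!
# Lines replaced by bundles
-/

set_option autoImplicit false

namespace Pool.Agent.Helper31K9.BU

open Finset Filter Topology
open Pool.Agent.H189R2.Lev (ht cr)
open Pool.Agent.H189R2.Iid (GP)
open Pool.Agent.Results.MP_a08d0a_co.SmoothedLevel (Simple level psi)
open Pool.Agent.Results.MP_a08d0a_co.IidLevel (sl ic simple_of_GP)

namespace PlaceL

/-- the index type -/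
abbrev I (A : Type) (m r₁ r₂ : ℕ) : Type := (A × Fin m) ⊕ (Fin r₁ ⊕ Fin r₂)

/-- the lines: bundles, and horizontal lines far away -/
def P0 {A : Type} {m r₁ r₂ : ℕ} (s t : A → ℝ) (ε M : ℝ) : I A m r₁ r₂ → ℝ × ℝ :=
  Sum.elim (fun p => (s p.1, t p.1 + ε * (p.2 : ℕ))) (Sum.elim (fun _ => (0, -M)) (fun _ => (0, M)))

/-- the lower lines -/
def LI {A : Type} {m r₁ r₂ : ℕ} (low : A → Prop) : I A m r₁ r₂ → Prop :=
  Sum.elim (fun p => low p.1) (Sum.elim (fun _ => True) (fun _ => False))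

open Classical in
theorem card_LI {A : Type} [Fintype A] {m r₁ r₂ N : ℕ} (e : I A m r₁ r₂ ≃ Fin N) (low : A → Prop) :
    (univ.filter fun l : Fin N => LI low (e.symm l)).card =
      (univ.filter fun c : A => low c).card * m + r₁ := by
  have h1 : (univ.filter fun l : Fin N => LI low (e.symm l)).card =
      (univ.filter fun i : I A m r₁ r₂ => LI low i).card := by
    refine card_bij' (fun l _ => e.symm l) (fun i _ => e i) ?_ ?_ ?_ ?_
    · intro l hl; simpa using hl
    · intro i hi; simpa using hi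
    · intro l _; simp
    · intro i _; simp
  rw [h1]
  have h2 : (univ.filter fun i : I A m r₁ r₂ => LI low i) =
      ((univ.filter fun c : A => low c) ×ˢ (univ : Finset (Fin m))).disjSum
        ((univ : Finset (Fin r₁)).disjSum (∅ : Finset (Fin r₂))) := by
    ext i
    rcases i with ⟨c, j⟩ | i | i
    · simp [LI]
    · simp [LI]
    · simp [LI]
  rw [h2, card_disjSum, card_disjSum, card_product]
  simp

/-- the order at one abscissa -/
theorem stackI {A : Type} {m r₁ r₂ N : ℕ} (e : I A m r₁ r₂ ≃ Fin N) (s t : A → ℝ) (ε M x : ℝ)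
    (low : A → Prop) (u w : A) (hε : 0 < ε) (L : Finset (Fin N))
    (hL : ∀ l, l ∈ L ↔ LI low (e.symm l))
    (h1 : ∀ j j' : Fin m, s u * x + (t u + ε * (j : ℕ)) < s w * x + (t w + ε * (j' : ℕ)))
    (h2 : ∀ c, low c → ∀ j j' : Fin m,
      s c * x + (t c + ε * (j : ℕ)) < s u * x + (t u + ε * (j' : ℕ)))
    (h3 : ∀ c, ¬ low c → c ≠ u → c ≠ w → ∀ j j' : Fin m,
      s w * x + (t w + ε * (j : ℕ)) < s c * x + (t c + ε * (j' : ℕ)))
    (hM1 : ∀ c, ∀ j : Fin m, -M < s c * x + (t c + ε * (j : ℕ)))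
    (hM2 : ∀ c, ∀ j : Fin m, s c * x + (t c + ε * (j : ℕ)) < M) :
    Stack (fun l => (P0 s t ε M (e.symm l)).1 * x + (P0 s t ε M (e.symm l)).2) L
      (fun j => e (Sum.inl (u, j))) (fun j => e (Sum.inl (w, j))) := by
  refine ⟨?_, ?_, ?_, ?_, ?_⟩
  · intro l hl j
    rw [hL] at hl
    obtain ⟨i, rfl⟩ := e.surjective l
    rw [Equiv.symm_apply_apply] at hl
    simp only [Equiv.symm_apply_apply]
    rcases i with ⟨c, j'⟩ | i | i
    · exact h2 c hl j' j
    · have := hM1 u j
      simp only [P0, Sum.elim_inl, Sum.elim_inr]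
      linarith
    · exact hl.elim
  · intro j j' hjj
    simp only [Equiv.symm_apply_apply, P0, Sum.elim_inl]
    have : ((j : ℕ) : ℝ) < (j' : ℕ) := by exact_mod_cast hjj
    have := mul_lt_mul_of_pos_left this hε
    linarith
  · intro j j'
    simp only [Equiv.symm_apply_apply, P0, Sum.elim_inl]
    exact h1 j j'
  · intro j j' hjj
    simp only [Equiv.symm_apply_apply, P0, Sum.elim_inl]
    have : ((j : ℕ) : ℝ) < (j' : ℕ) := by exact_mod_cast hjj
    have := mul_lt_mul_of_pos_left this hε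
    linarith
  · intro l hl hu hw j
    rw [hL] at hl
    obtain ⟨i, rfl⟩ := e.surjective l
    rw [Equiv.symm_apply_apply] at hl
    simp only [Equiv.symm_apply_apply]
    rcases i with ⟨c, j'⟩ | i | i
    · refine h3 c hl ?_ ?_ j j'
      · rintro rfl; exact hu j' rfl
      · rintro rfl; exact hw j' rfl
    · exact (hl trivial).elim
    · have := hM2 w j
      simp only [P0, Sum.elim_inl, Sum.elim_inr]
      linarith

/-- `Stack` is an open condition. -/
theorem stack_open {N m : ℕ} (Q : Fin N → ℝ × ℝ) (x : ℝ) (L : Finset (Fin N)) (U V : Fin m → Fin N)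
    (h : Stack (fun l => (Q l).1 * x + (Q l).2) L U V) :
    ∀ᶠ P in 𝓝 Q, Stack (fun l => (P l).1 * x + (P l).2) L U V := by
  have hc : ∀ l : Fin N, Continuous (fun P : Fin N → ℝ × ℝ => (P l).1 * x + (P l).2) := fun l =>
    ((continuous_apply l).fst.mul continuous_const).add (continuous_apply l).snd
  have key : ∀ l l' : Fin N, (Q l).1 * x + (Q l).2 < (Q l').1 * x + (Q l').2 →
      ∀ᶠ P in 𝓝 Q, (P l).1 * x + (P l).2 < (P l').1 * x + (P l').2 := fun l l' hl =>
    ((hc l).tendsto Q).eventually_lt ((hc l').tendsto Q) hl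
  obtain ⟨h1, h2, h3, h4, h5⟩ := h
  have k1 : ∀ᶠ P : Fin N → ℝ × ℝ in 𝓝 Q, ∀ l ∈ L, ∀ s,
      (P l).1 * x + (P l).2 < (P (U s)).1 * x + (P (U s)).2 := by
    rw [eventually_all]; intro l
    by_cases hl : l ∈ L
    · have : ∀ᶠ P : Fin N → ℝ × ℝ in 𝓝 Q, ∀ s,
          (P l).1 * x + (P l).2 < (P (U s)).1 * x + (P (U s)).2 := by
        rw [eventually_all]; intro s; exact key _ _ (h1 l hl s)
      filter_upwards [this] with P hP _
      exact hP
    · exact Eventually.of_forall fun _ h => absurd h hl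
  have k2 : ∀ᶠ P : Fin N → ℝ × ℝ in 𝓝 Q, ∀ s s', s < s' →
      (P (U s)).1 * x + (P (U s)).2 < (P (U s')).1 * x + (P (U s')).2 := by
    rw [eventually_all]; intro s
    rw [eventually_all]; intro s'
    by_cases hs : s < s'
    · filter_upwards [key _ _ (h2 s s' hs)] with P hP _
      exact hP
    · exact Eventually.of_forall fun _ h => absurd h hs
  have k3 : ∀ᶠ P : Fin N → ℝ × ℝ in 𝓝 Q, ∀ s s',
      (P (U s)).1 * x + (P (U s)).2 < (P (V s')).1 * x + (P (V s')).2 := by
    rw [eventually_all]; intro s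
    rw [eventually_all]; intro s'
    exact key _ _ (h3 s s')
  have k4 : ∀ᶠ P : Fin N → ℝ × ℝ in 𝓝 Q, ∀ s s', s < s' →
      (P (V s)).1 * x + (P (V s)).2 < (P (V s')).1 * x + (P (V s')).2 := by
    rw [eventually_all]; intro s
    rw [eventually_all]; intro s'
    by_cases hs : s < s'
    · filter_upwards [key _ _ (h4 s s' hs)] with P hP _
      exact hP
    · exact Eventually.of_forall fun _ h => absurd h hs
  have k5 : ∀ᶠ P : Fin N → ℝ × ℝ in 𝓝 Q, ∀ l, l ∉ L → (∀ s, l ≠ U s) → (∀ s, l ≠ V s) → ∀ s,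
      (P (V s)).1 * x + (P (V s)).2 < (P l).1 * x + (P l).2 := by
    rw [eventually_all]; intro l
    by_cases hl : l ∉ L ∧ (∀ s, l ≠ U s) ∧ (∀ s, l ≠ V s)
    · have : ∀ᶠ P : Fin N → ℝ × ℝ in 𝓝 Q, ∀ s,
          (P (V s)).1 * x + (P (V s)).2 < (P l).1 * x + (P l).2 := by
        rw [eventually_all]; intro s; exact key _ _ (h5 l hl.1 hl.2.1 hl.2.2 s)
      filter_upwards [this] with P hP _ _ _
      exact hP
    · exact Eventually.of_forall fun _ g1 g2 g3 => absurd ⟨g1, g2, g3⟩ hl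
  filter_upwards [k1, k2, k3, k4, k5] with P p1 p2 p3 p4 p5
  exact ⟨p1, p2, p3, p4, p5⟩

/-- The order of the given lines at `x`: `low` below, then `u`, then `w`, then the rest. -/
def Ord {A : Type} (s t : A → ℝ) (low : A → Prop) (u w : A) (x : ℝ) : Prop :=
  s u * x + t u < s w * x + t w ∧ (∀ c, low c → s c * x + t c < s u * x + t u) ∧
    ∀ c, ¬ low c → c ≠ u → c ≠ w → s w * x + t w < s c * x + t c

theorem ord_left {A : Type} [Finite A] (s t : A → ℝ) (u w : A) (X : ℝ)
    (hX : s u * X + t u = s w * X + t w) (hs : s w < s u)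
    (ho : ∀ c, c ≠ u → c ≠ w → s c * X + t c ≠ s u * X + t u) :
    ∀ᶠ η : ℝ in 𝓝[>] 0, Ord s t (fun c => s c * X + t c < s u * X + t u) u w (X - η) ∧
      Ord s t (fun c => s c * X + t c < s u * X + t u) w u (X + η) := by
  have hc : ∀ c : A, ∀ σ : ℝ, Continuous fun η : ℝ => s c * (X + σ * η) + t c := fun c σ => by
    fun_prop
  have key : ∀ c d : A, ∀ σ : ℝ, s c * X + t c < s d * X + t d →
      ∀ᶠ η : ℝ in 𝓝[>] 0, s c * (X + σ * η) + t c < s d * (X + σ * η) + t d := by
    intro c d σ h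
    have := ((hc c σ).tendsto 0).eventually_lt ((hc d σ).tendsto 0) (by simpa using h)
    exact this.filter_mono nhdsWithin_le_nhds
  have kl : ∀ σ : ℝ, ∀ᶠ η : ℝ in 𝓝[>] 0, ∀ c, s c * X + t c < s u * X + t u →
      s c * (X + σ * η) + t c < s u * (X + σ * η) + t u ∧
      s c * (X + σ * η) + t c < s w * (X + σ * η) + t w := by
    intro σ
    rw [eventually_all]; intro c
    by_cases h : s c * X + t c < s u * X + t u
    · filter_upwards [key c u σ h, key c w σ (by rwa [← hX])] with η h1 h2 _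
      exact ⟨h1, h2⟩
    · exact Eventually.of_forall fun _ g => absurd g h
  have kr : ∀ σ : ℝ, ∀ᶠ η : ℝ in 𝓝[>] 0, ∀ c, ¬ s c * X + t c < s u * X + t u → c ≠ u → c ≠ w →
      s u * (X + σ * η) + t u < s c * (X + σ * η) + t c ∧
      s w * (X + σ * η) + t w < s c * (X + σ * η) + t c := by
    intro σ
    rw [eventually_all]; intro c
    by_cases h : ¬ s c * X + t c < s u * X + t u ∧ c ≠ u ∧ c ≠ w
    · have h' : s u * X + t u < s c * X + t c :=
        lt_of_le_of_ne (not_lt.1 h.1) (ho c h.2.1 h.2.2).symm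
      filter_upwards [key u c σ h', key w c σ (by rwa [← hX])] with η h1 h2 _ _ _
      exact ⟨h1, h2⟩
    · exact Eventually.of_forall fun _ g1 g2 g3 => absurd ⟨g1, g2, g3⟩ h
  filter_upwards [kl (-1), kl 1, kr (-1), kr 1, self_mem_nhdsWithin] with η l1 l2 r1 r2 hη
  have hη' : (0 : ℝ) < η := hη
  have hm := mul_pos (sub_pos.2 hs) hη'
  have e1 : X + -1 * η = X - η := by ring
  have e2 : X + 1 * η = X + η := by ring
  rw [e1] at l1 r1
  rw [e2] at l2 r2
  refine ⟨⟨?_, fun c hc => (l1 c hc).1, fun c h1 h2 h3 => (r1 c h1 h2 h3).2⟩,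
    ⟨?_, fun c hc => (l2 c hc).2, fun c h1 h2 h3 => (r2 c h1 h3 h2).1⟩⟩
  · nlinarith
  · nlinarith

theorem eps_ok {A : Type} [Finite A] (m : ℕ) (s t : A → ℝ) (low : A → Prop) (u w : A) (x : ℝ)
    (h : Ord s t low u w x) : ∀ᶠ ε : ℝ in 𝓝[>] 0,
      (∀ j j' : Fin m, s u * x + (t u + ε * (j : ℕ)) < s w * x + (t w + ε * (j' : ℕ))) ∧
      (∀ c, low c → ∀ j j' : Fin m,
        s c * x + (t c + ε * (j : ℕ)) < s u * x + (t u + ε * (j' : ℕ))) ∧
      (∀ c, ¬ low c → c ≠ u → c ≠ w → ∀ j j' : Fin m,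
        s w * x + (t w + ε * (j : ℕ)) < s c * x + (t c + ε * (j' : ℕ))) := by
  have key : ∀ c d : A, s c * x + t c < s d * x + t d →
      ∀ᶠ ε : ℝ in 𝓝[>] 0, ∀ j j' : Fin m,
        s c * x + (t c + ε * (j : ℕ)) < s d * x + (t d + ε * (j' : ℕ)) := by
    intro c d h
    rw [eventually_all]; intro j
    rw [eventually_all]; intro j'
    have h1 : Continuous fun ε : ℝ => s c * x + (t c + ε * (j : ℕ)) := by fun_prop
    have h2 : Continuous fun ε : ℝ => s d * x + (t d + ε * (j' : ℕ)) := by fun_prop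
    have := (h1.tendsto 0).eventually_lt (h2.tendsto 0) (by simpa using h)
    exact this.filter_mono nhdsWithin_le_nhds
  obtain ⟨h1, h2, h3⟩ := h
  have k2 : ∀ᶠ ε : ℝ in 𝓝[>] 0, ∀ c, low c → ∀ j j' : Fin m,
      s c * x + (t c + ε * (j : ℕ)) < s u * x + (t u + ε * (j' : ℕ)) := by
    rw [eventually_all]; intro c
    by_cases hc : low c
    · filter_upwards [key c u (h2 c hc)] with ε hε _
      exact hε
    · exact Eventually.of_forall fun _ g => absurd g hc
  have k3 : ∀ᶠ ε : ℝ in 𝓝[>] 0, ∀ c, ¬ low c → c ≠ u → c ≠ w → ∀ j j' : Fin m,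
      s w * x + (t w + ε * (j : ℕ)) < s c * x + (t c + ε * (j' : ℕ)) := by
    rw [eventually_all]; intro c
    by_cases hc : ¬ low c ∧ c ≠ u ∧ c ≠ w
    · filter_upwards [key w c (h3 c hc.1 hc.2.1 hc.2.2)] with ε hε _ _ _
      exact hε
    · exact Eventually.of_forall fun _ g1 g2 g3 => absurd ⟨g1, g2, g3⟩ hc
  filter_upwards [key u w h1, k2, k3] with ε e1 e2 e3
  exact ⟨e1, e2, e3⟩

end PlaceL

open PlaceL in
theorem place : S_PLACE := by
  classical
  intro n E k m r₁ r₂ hB hm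
  obtain ⟨A, R, _, _, s, t, X, a, b, hA, hR, hXi, hX, hs, ho, hk⟩ := hB
  -- the half width of the intervals
  have hη : ∀ᶠ η : ℝ in 𝓝[>] 0, (∀ r,
      Ord s t (fun c => s c * X r + t c < s (a r) * X r + t (a r)) (a r) (b r) (X r - η) ∧
      Ord s t (fun c => s c * X r + t c < s (a r) * X r + t (a r)) (b r) (a r) (X r + η)) ∧
      ∀ r r', r ≠ r' → 2 * η < |X r - X r'| := by
    refine Eventually.and ?_ ?_
    · rw [eventually_all]; intro r
      exact ord_left s t (a r) (b r) (X r) (hX r) (hs r) (ho r)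
    · rw [eventually_all]; intro r
      rw [eventually_all]; intro r'
      by_cases h : r = r'
      · exact Eventually.of_forall fun _ g => absurd h g
      · have h1 : 0 < |X r - X r'| := abs_pos.2 (sub_ne_zero.2 fun e => h (hXi e))
        have h2 : Continuous fun η : ℝ => 2 * η := by fun_prop
        have := (h2.tendsto 0).eventually_lt (tendsto_const_nhds (x := |X r - X r'|))
          (by simpa using h1)
        filter_upwards [this.filter_mono nhdsWithin_le_nhds] with η hη _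
        exact hη
  obtain ⟨η, ⟨⟨hη1, hη2⟩, hη0⟩⟩ := (hη.and self_mem_nhdsWithin).exists
  have hη0' : (0 : ℝ) < η := hη0
  -- the distance of the parallel lines
  have hε : ∀ᶠ ε : ℝ in 𝓝[>] 0, ∀ r, ((∀ j j' : Fin m, s (a r) * (X r - η) + (t (a r) + ε * (j : ℕ)) <
        s (b r) * (X r - η) + (t (b r) + ε * (j' : ℕ))) ∧
      (∀ c, s c * X r + t c < s (a r) * X r + t (a r) → ∀ j j' : Fin m,
        s c * (X r - η) + (t c + ε * (j : ℕ)) <
          s (a r) * (X r - η) + (t (a r) + ε * (j' : ℕ))) ∧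
      (∀ c, ¬ s c * X r + t c < s (a r) * X r + t (a r) → c ≠ a r → c ≠ b r → ∀ j j' : Fin m,
        s (b r) * (X r - η) + (t (b r) + ε * (j : ℕ)) <
          s c * (X r - η) + (t c + ε * (j' : ℕ)))) ∧
      ((∀ j j' : Fin m, s (b r) * (X r + η) + (t (b r) + ε * (j : ℕ)) <
        s (a r) * (X r + η) + (t (a r) + ε * (j' : ℕ))) ∧
      (∀ c, s c * X r + t c < s (a r) * X r + t (a r) → ∀ j j' : Fin m,
        s c * (X r + η) + (t c + ε * (j : ℕ)) <
          s (b r) * (X r + η) + (t (b r) + ε * (j' : ℕ))) ∧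
      (∀ c, ¬ s c * X r + t c < s (a r) * X r + t (a r) → c ≠ b r → c ≠ a r → ∀ j j' : Fin m,
        s (a r) * (X r + η) + (t (a r) + ε * (j : ℕ)) <
          s c * (X r + η) + (t c + ε * (j' : ℕ)))) := by
    rw [eventually_all]; intro r
    exact (eps_ok m s t _ _ _ _ (hη1 r).1).and (eps_ok m s t _ _ _ _ (hη1 r).2)
  obtain ⟨ε, hε1, hε0⟩ := (hε.and self_mem_nhdsWithin).exists
  have hε0' : (0 : ℝ) < ε := hε0
  -- the far lines
  have hfin : ∃ M : ℝ, ∀ (r : R) (c : A) (j : Fin m),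
      |s c * (X r - η) + (t c + ε * (j : ℕ))| < M ∧
      |s c * (X r + η) + (t c + ε * (j : ℕ))| < M := by
    have h1 : ∀ᶠ M : ℝ in atTop, ∀ (r : R) (c : A) (j : Fin m),
        |s c * (X r - η) + (t c + ε * (j : ℕ))| < M ∧
        |s c * (X r + η) + (t c + ε * (j : ℕ))| < M := by
      rw [eventually_all]; intro r
      rw [eventually_all]; intro c
      rw [eventually_all]; intro j
      exact (eventually_gt_atTop _).and (eventually_gt_atTop _)
    exact h1.exists
  obtain ⟨M, hM⟩ := hfin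
  have hcard : Fintype.card (I A m r₁ r₂) = n * m + r₁ + r₂ := by
    simp [hA]
    ring
  let e : I A m r₁ r₂ ≃ Fin (n * m + r₁ + r₂) := Fintype.equivFinOfCardEq hcard
  let Q0 : Fin (n * m + r₁ + r₂) → ℝ × ℝ := fun l => P0 s t ε M (e.symm l)
  let L : R → Finset (Fin (n * m + r₁ + r₂)) := fun r => univ.filter fun l =>
    LI (fun c => s c * X r + t c < s (a r) * X r + t (a r)) (e.symm l)
  have hLmem : ∀ r l, l ∈ L r ↔
      LI (fun c => s c * X r + t c < s (a r) * X r + t (a r)) (e.symm l) := fun r l => by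
    simp [L]
  have hS1 : ∀ r, Stack (fun l => (Q0 l).1 * (X r - η) + (Q0 l).2) (L r)
      (fun j => e (Sum.inl (a r, j))) (fun j => e (Sum.inl (b r, j))) := fun r =>
    stackI e s t ε M (X r - η) _ (a r) (b r) hε0' (L r) (hLmem r) (hε1 r).1.1 (hε1 r).1.2.1
      (hε1 r).1.2.2 (fun c j => (abs_lt.1 (hM r c j).1).1) (fun c j => (abs_lt.1 (hM r c j).1).2)
  have hS2 : ∀ r, Stack (fun l => (Q0 l).1 * (X r + η) + (Q0 l).2) (L r)
      (fun j => e (Sum.inl (b r, j))) (fun j => e (Sum.inl (a r, j))) := fun r =>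
    stackI e s t ε M (X r + η) _ (b r) (a r) hε0' (L r) (hLmem r) (hε1 r).2.1 (hε1 r).2.2.1
      (hε1 r).2.2.2 (fun c j => (abs_lt.1 (hM r c j).2).1) (fun c j => (abs_lt.1 (hM r c j).2).2)
  have hev : ∀ᶠ P in 𝓝 Q0, ∀ r, Stack (fun l => (P l).1 * (X r - η) + (P l).2) (L r)
      (fun j => e (Sum.inl (a r, j))) (fun j => e (Sum.inl (b r, j))) ∧
      Stack (fun l => (P l).1 * (X r + η) + (P l).2) (L r)
      (fun j => e (Sum.inl (b r, j))) (fun j => e (Sum.inl (a r, j))) := by
    rw [eventually_all]; intro r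
    exact (stack_open _ _ _ _ _ (hS1 r)).and (stack_open _ _ _ _ _ (hS2 r))
  obtain ⟨P, hP1, hP2⟩ := Pool.Agent.Y344.KD.exists_near Q0 hev
  have hsim := simple_of_GP hP2
  have hab : ∀ r, a r ≠ b r := fun r h => by
    have := hs r
    rw [h] at this
    exact lt_irrefl _ this
  have hinj : ∀ c : A, Function.Injective (fun j : Fin m =>
      e (Sum.inl (c, j) : I A m r₁ r₂)) := fun c j j' h => by
    have := e.injective h
    simpa using this
  refine ⟨sl P, ic P, R, inferInstance, fun r => X r - η, fun r => X r + η, L,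
    fun r j => e (Sum.inl (a r, j)), fun r j => e (Sum.inl (b r, j)), ⟨hsim.1, hsim.2⟩, hR,
    fun r => by linarith, ?_, ?_, fun r => hinj _, fun r => hinj _, ?_, ?_, ?_,
    fun r => (hP1 r).1, fun r => (hP1 r).2⟩
  · intro r r' hne
    have h := hη2 r r' hne
    rw [Set.disjoint_left]
    rintro x ⟨g1, g2⟩ ⟨g3, g4⟩
    have h5 : |X r - X r'| < 2 * η := by
      rw [abs_lt]
      constructor <;> linarith
    linarith
  · intro r
    have := card_LI e (fun c => s c * X r + t c < s (a r) * X r + t (a r))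
    have h2 : (univ.filter fun c : A => s c * X r + t c < s (a r) * X r + t (a r)).card = k := by
      rw [← hk r, ← Set.ncard_coe_finset]
      congr 1
      ext c; simp
    rw [h2] at this
    exact this
  · intro r j j' h
    have := e.injective h
    simp only [Sum.inl.injEq, Prod.mk.injEq] at this
    exact hab r this.1
  · intro r j h
    rw [hLmem, Equiv.symm_apply_apply] at h
    exact lt_irrefl _ (show s (a r) * X r + t (a r) < s (a r) * X r + t (a r) from h)
  · intro r j h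
    rw [hLmem, Equiv.symm_apply_apply] at h
    have h' : s (b r) * X r + t (b r) < s (a r) * X r + t (a r) := h
    rw [hX r] at h'
    exact lt_irrefl _ h'

end Pool.Agent.Helper31K9.BU
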