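import Pool.Agent.Helper31K9.BU.St
import Pool.Agent.Results.MP_a08d0a_co.IidLevel

/-!
# Leaves SUM, FINB, CONT
-/

set_option autoImplicit false

namespace Pool.Agent.Helper31K9.BU

open Finset Filter Topology
open Pool.Agent.H189R2.Lev (ht cr)
open Pool.Agent.Results.MP_a08d0a_co.SmoothedLevel (Simple level psi)

theorem sum : S_SUM := by
  classical
  intro N a B k Q _ x₁ x₂ G hfin hdisj
  have hpsi : psi a B k = (brk a B k).encard := rfl
  have hne : psi a B k ≠ ⊤ := by
    rw [hpsi]
    exact Set.encard_ne_top_iff.mpr hfin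
  refine ⟨hne, ?_⟩
  have h1 : (psi a B k).toNat = (brk a B k).ncard := rfl
  rw [h1]
  have h2 : ∀ q, (brk a B k ∩ Set.Ioo (x₁ q) (x₂ q)).ncard =
      (hfin.toFinset.filter (fun x => x ∈ Set.Ioo (x₁ q) (x₂ q))).card := by
    intro q
    rw [← Set.ncard_coe_finset]
    congr 1
    ext x
    rw [mem_coe, mem_filter, Set.Finite.mem_toFinset]
    rfl
  rw [sum_congr rfl (fun q _ => h2 q), Set.ncard_eq_toFinset_card _ hfin]
  rw [← card_biUnion]
  · apply card_le_card
    intro x hx
    rw [mem_biUnion] at hx
    obtain ⟨q, _, hx⟩ := hx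
    exact (mem_filter.mp hx).1
  · intro q _ q' _ hqq
    show Disjoint _ _
    rw [Finset.disjoint_left]
    intro x hx hx'
    have := Set.disjoint_left.mp (hdisj q q' hqq) (mem_filter.mp hx).2
    exact this (mem_filter.mp hx').2

/-- transfer to the definitions in `IidLevel` -/
theorem finb : S_FINB := by
  intro N a B hS k hk
  have hS' : Pool.Agent.Results.MP_a08d0a_co.IidLevel.Simple a B := hS
  have h := Pool.Agent.Results.MP_a08d0a_co.IidLevel.psi_le hS' hk
  have h2 : (brk a B k).encard ≤ _ := h
  exact Set.encard_ne_top_iff.mp (ne_top_of_le_ne_top (ENat.natCast_ne_top _) h2)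

theorem cont : S_CONT := by
  classical
  intro N a B k hk
  have hne : (powersetCard (k + 1) (univ : Finset (Fin N))).Nonempty := by
    rw [powersetCard_nonempty]
    simp only [card_univ, Fintype.card_fin]
    omega
  have hne2 : ∀ S ∈ powersetCard (k + 1) (univ : Finset (Fin N)), S.Nonempty := by
    intro S hS
    rw [mem_powersetCard] at hS
    exact card_pos.mp (by omega)
  set F : {S // S ∈ powersetCard (k + 1) (univ : Finset (Fin N))} → ℝ → ℝ :=
    fun S x => S.1.sup' (hne2 S.1 S.2) (fun l => ht a B l x) with hF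
  have hFc : ∀ S, Continuous (F S) := by
    intro S
    apply Continuous.finset_sup'_apply
    intro l _
    unfold ht
    fun_prop
  have hne3 : (univ : Finset {S // S ∈ powersetCard (k + 1) (univ : Finset (Fin N))}).Nonempty := by
    obtain ⟨S, hS⟩ := hne
    exact ⟨⟨S, hS⟩, mem_univ _⟩
  have key : level a B k = fun x => univ.inf' hne3 (fun S => F S x) := by
    funext x
    have hcard : ∀ y, {l | ht a B l x ≤ y}.ncard = (univ.filter (fun l => ht a B l x ≤ y)).card := by
      intro y
      rw [← Set.ncard_coe_finset]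
      congr 1
      ext l
      simp
    unfold level
    apply IsLeast.csInf_eq
    constructor
    · obtain ⟨S, _, hS⟩ := exists_mem_eq_inf' hne3 (fun S => F S x)
      rw [Set.mem_ofPred_eq, hS, hcard]
      have hSc := (mem_powersetCard.mp S.2).2
      have : S.1.card ≤ (univ.filter (fun l => ht a B l x ≤ F S x)).card := by
        apply card_le_card
        intro l hl
        rw [mem_filter]
        exact ⟨mem_univ _, le_sup' (fun l => ht a B l x) hl⟩
      omega
    · intro y hy
      rw [Set.mem_ofPred_eq, hcard] at hy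
      obtain ⟨S, hS1, hS2⟩ := exists_subset_card_eq (show k + 1 ≤ _ from hy)
      have hS : S ∈ powersetCard (k + 1) (univ : Finset (Fin N)) :=
        mem_powersetCard.mpr ⟨subset_univ _, hS2⟩
      calc univ.inf' hne3 (fun S => F S x) ≤ F ⟨S, hS⟩ x :=
            inf'_le (fun S => F S x) (mem_univ _)
        _ ≤ y := by
            apply sup'_le
            intro l hl
            exact (mem_filter.mp (hS1 hl)).2
  rw [key]
  apply Continuous.finset_inf'_apply
  intro S _
  exact hFc S

end Pool.Agent.Helper31K9.BU
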